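import Pool.Agent.Lib.MP_2254b5_lc.Defs

/-!
# MP_2254b5_lc / Agree (row AG, about 130 lines): a run depends only on the words it asks

STATEMENTS: below, verbatim.

PROOF. `Run.agree`, `Run.card`, `Run.len`: induction on the run (`ask` is the only case that uses the oracle; it takes one step and asks one word; in `Run.len` the invariant is: every stack has length at most `M` before, hence at most `M + t` after `t` steps, and the words asked are stacks on the way; in the cases `seq` and `loopT` apply the second induction hypothesis with `M + t`).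
`Out.queries`: `q` is the list of the run. `Out.agree`: `Run.len` with `ini x y z` (all stacks have length `≤ M`), then `Run.agree`. `acc_congr`: both sets of words are equal, by `Out.agree` in both directions.
-/

namespace Pool.Agent.Lib.MP_2254b5_lc

theorem Run.agree {A A' : Orc} {P : Prog} {s s' : St} {t : ℕ} {q : List Word}
    (h : Run A P s s' t q) (hq : ∀ w ∈ q, A w = A' w) : Run A' P s s' t q := by
  induction h with
  | skip s => exact .skip s
  | push k b s => exact .push k b s
  | pop k s => exact .pop k s
  | ask k s =>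
    have h1 : A (s k) = A' (s k) := hq _ (List.mem_singleton.2 rfl)
    rw [h1]
    exact .ask k s
  | seq _ _ ih ih' =>
    exact .seq (ih fun w hw => hq w (List.mem_append_left _ hw)) (ih' fun w hw => hq w (List.mem_append_right _ hw))
  | iteT hk _ ih => exact .iteT hk (ih hq)
  | iteF hk _ ih => exact .iteF hk (ih hq)
  | loopT hk _ _ ih ih' =>
    exact .loopT hk (ih fun w hw => hq w (List.mem_append_left _ hw))
      (ih' fun w hw => hq w (List.mem_append_right _ hw))
  | loopF hk => exact .loopF hk

theorem Run.card {A : Orc} {P : Prog} {s s' : St} {t : ℕ} {q : List Word}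
    (h : Run A P s s' t q) : q.length ≤ t := by
  induction h with
  | skip s => simp
  | push k b s => simp
  | pop k s => simp
  | ask k s => simp
  | seq _ _ ih ih' =>
    rw [List.length_append]
    omega
  | iteT hk _ ih => omega
  | iteF hk _ ih => omega
  | loopT hk _ _ ih ih' =>
    rw [List.length_append]
    omega
  | loopF hk => simp

theorem Run.len {A : Orc} {P : Prog} {s s' : St} {t : ℕ} {q : List Word}
    (h : Run A P s s' t q) (M : ℕ) (hs : ∀ k, (s k).length ≤ M) :
    (∀ k, (s' k).length ≤ M + t) ∧ ∀ w ∈ q, w.length ≤ M + t := by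
  induction h generalizing M with
  | skip s => exact ⟨fun k => (hs k).trans (Nat.le_succ M), by simp⟩
  | push k b s =>
    refine ⟨fun j => ?_, by simp⟩
    rcases eq_or_ne j k with rfl | hj
    · rw [Function.update_self, List.length_cons]
      exact Nat.succ_le_succ (hs j)
    · rw [Function.update_of_ne hj]
      exact (hs j).trans (Nat.le_succ M)
  | pop k s =>
    refine ⟨fun j => ?_, by simp⟩
    rcases eq_or_ne j k with rfl | hj
    · rw [Function.update_self, List.length_tail]
      exact (Nat.sub_le _ _).trans ((hs j).trans (Nat.le_succ M))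
    · rw [Function.update_of_ne hj]
      exact (hs j).trans (Nat.le_succ M)
  | ask k s =>
    refine ⟨fun j => ?_, fun w hw => ?_⟩
    · rcases eq_or_ne j k with rfl | hj
      · rw [Function.update_self, List.length_singleton]
        omega
      · rw [Function.update_of_ne hj]
        exact (hs j).trans (Nat.le_succ M)
    · rw [List.mem_singleton.1 hw]
      exact (hs k).trans (Nat.le_succ M)
  | @seq P Q s s' s'' t t' q q' _ _ ih ih' =>
    obtain ⟨h1, h2⟩ := ih M hs
    obtain ⟨h3, h4⟩ := ih' (M + t) h1
    refine ⟨fun k => (h3 k).trans (by omega), fun w hw => ?_⟩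
    rcases List.mem_append.1 hw with hw | hw
    · exact (h2 w hw).trans (by omega)
    · exact (h4 w hw).trans (by omega)
  | iteT hk _ ih =>
    obtain ⟨h1, h2⟩ := ih M hs
    exact ⟨fun k => (h1 k).trans (by omega), fun w hw => (h2 w hw).trans (by omega)⟩
  | iteF hk _ ih =>
    obtain ⟨h1, h2⟩ := ih M hs
    exact ⟨fun k => (h1 k).trans (by omega), fun w hw => (h2 w hw).trans (by omega)⟩
  | @loopT k P s s' s'' t t' q q' hk _ _ ih ih' =>
    obtain ⟨h1, h2⟩ := ih M hs
    obtain ⟨h3, h4⟩ := ih' (M + t) h1
    refine ⟨fun k => (h3 k).trans (by omega), fun w hw => ?_⟩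
    rcases List.mem_append.1 hw with hw | hw
    · exact (h2 w hw).trans (by omega)
    · exact (h4 w hw).trans (by omega)
  | loopF hk => exact ⟨fun k => (hs k).trans (Nat.le_succ M), by simp⟩

theorem Out.queries {A : Orc} {P : Prog} {T : ℕ} {x y z : Word} {v : Bool} (h : Out A P T x y z v) :
    ∃ q : List Word, q.length ≤ T ∧ ∀ A' : Orc, (∀ w ∈ q, A w = A' w) → Out A' P T x y z v := by
  obtain ⟨s, t, q, ht, hr, hv⟩ := h
  exact ⟨q, hr.card.trans ht, fun A' hA => ⟨s, t, q, ht, hr.agree hA, hv⟩⟩

theorem Out.agree {A A' : Orc} {P : Prog} {T M : ℕ} {x y z : Word} {v : Bool}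
    (h : Out A P T x y z v) (hx : x.length ≤ M) (hy : y.length ≤ M) (hz : z.length ≤ M)
    (hA : ∀ w : Word, w.length ≤ M + T → A w = A' w) : Out A' P T x y z v := by
  obtain ⟨s, t, q, ht, hr, hv⟩ := h
  have hs : ∀ k, (ini x y z k).length ≤ M := by
    intro k
    unfold ini
    split_ifs
    · exact hx
    · exact hy
    · exact hz
    · exact Nat.zero_le M
  exact ⟨s, t, q, ht, hr.agree fun w hw => hA w (((hr.len M hs).2 w hw).trans (by omega)), hv⟩

theorem acc_congr {A A' : Orc} {Q : Prog} {T m M : ℕ} {x : Word} (hx : x.length ≤ M) (hm : m ≤ M)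
    (hA : ∀ w : Word, w.length ≤ M + T → A w = A' w) : acc A Q T m x = acc A' Q T m x := by
  unfold acc
  congr 1
  ext r
  constructor
  · rintro ⟨hr, w, hw, ho⟩
    exact ⟨hr, w, hw, ho.agree hx (hr.le.trans hm) (hw.le.trans hm) hA⟩
  · rintro ⟨hr, w, hw, ho⟩
    exact ⟨hr, w, hw, ho.agree hx (hr.le.trans hm) (hw.le.trans hm) fun u hu => (hA u hu).symm⟩

end Pool.Agent.Lib.MP_2254b5_lc
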