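import Pool.Agent.Lib.MP_2254b5_lc.Det

/-!
# MP_2254b5_lc / Compl (row CM, about 130 lines): `O_2^p` is closed under complement

STATEMENTS: below, verbatim.

PROOF. `cmp Q`: the four loops move stack `1` to `3` and `2` to `4` (reversed), then `3` to `2` and `4` to `1` (reversed again): the state `ini x z y` becomes `ini x y z` (one general lemma on the program `mov a b`, `a ≠ b`: it leads from `s` to `Function.update (Function.update s a []) b ((s a).reverse ++ s b)` in at most `5 * (s a).length + 1` steps, no words asked; induction on the word on stack `a`). Then `Q` runs, and the negation of the top bit of stack `0` is pushed on stack `0`. Time `≤ T + 2 * (5 |y| + 1) + 2 * (5 |z| + 1) + 2`.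
`InO2.compl`: `cmp Q`, the time `T + 30 * (m + m + 1)`, the same `m`, and for every `n` the words `z, y` in place of `y, z`.
-/

namespace Pool.Agent.Lib.MP_2254b5_lc

/-- Move the word on stack `a` to stack `b`, reversed. -/
def mov (a b : ℕ) : Prog := .loop a (.seq (.ite a (.push b true) (.push b false)) (.pop a))

/-- Exchange the words on the stacks `1` and `2`, run `Q`, negate the output. -/
def cmp (Q : Prog) : Prog :=
  .seq (mov 1 3) (.seq (mov 2 4) (.seq (mov 3 2) (.seq (mov 4 1)
    (.seq Q (.ite 0 (.push 0 false) (.push 0 true))))))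

private theorem cm_mov {A : Orc} {a b : ℕ} (hab : a ≠ b) (w : Word) : ∀ s : St, s a = w →
    ∃ t, t ≤ 5 * w.length + 1 ∧
      Run A (mov a b) s (Function.update (Function.update s a []) b (w.reverse ++ s b)) t [] := by
  induction w with
  | nil =>
    intro s hs
    refine ⟨1, by simp, ?_⟩
    have e : Function.update (Function.update s a []) b (([] : Word).reverse ++ s b) = s := by
      funext k
      by_cases hb : k = b
      · subst hb
        simp
      · rw [Function.update_of_ne hb]
        by_cases ha : k = a
        · subst ha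
          simp [hs]
        · rw [Function.update_of_ne ha]
    rw [e]
    exact Run.loopF hs
  | cons c w ih =>
    intro s hs
    set s1 : St := Function.update s b (c :: s b) with hs1
    set s2 : St := Function.update s1 a (s1 a).tail with hs2
    have h1a : s1 a = c :: w := by rw [hs1, Function.update_of_ne hab, hs]
    have h2a : s2 a = w := by rw [hs2, Function.update_self, h1a, List.tail_cons]
    have h2b : s2 b = c :: s b := by
      rw [hs2, Function.update_of_ne hab.symm, hs1, Function.update_self]
    obtain ⟨t, ht, hr⟩ := ih s2 h2a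
    have hite : Run A (.ite a (.push b true) (.push b false)) s s1 (1 + 1) [] := by
      cases c with
      | true =>
        exact Run.iteT (by rw [hs]; rfl) (Run.push b true s)
      | false =>
        exact Run.iteF (by rw [hs]; simp) (Run.push b false s)
    have hbody : Run A (.seq (.ite a (.push b true) (.push b false)) (.pop a)) s s2 (1 + 1 + 1) ([] ++ []) :=
      Run.seq hite (Run.pop a s1)
    have hloop := Run.loopT (k := a) (by rw [hs]; simp) hbody hr
    refine ⟨1 + 1 + 1 + t + 1, by simp only [List.length_cons]; omega, ?_⟩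
    have e : Function.update (Function.update s2 a []) b (w.reverse ++ s2 b) =
        Function.update (Function.update s a []) b ((c :: w).reverse ++ s b) := by
      funext k
      by_cases hb : k = b
      · subst hb
        rw [Function.update_self, Function.update_self, h2b, List.reverse_cons, List.append_assoc]
        rfl
      · rw [Function.update_of_ne hb, Function.update_of_ne hb]
        by_cases ha : k = a
        · subst ha
          rw [Function.update_self, Function.update_self]
        · rw [Function.update_of_ne ha, Function.update_of_ne ha, hs2, Function.update_of_ne ha, hs1,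
            Function.update_of_ne hb]
    rw [e] at hloop
    exact hloop

private theorem cm_swap {A : Orc} (x y z : Word) : ∃ t1 t2 t3 t4 : ℕ, ∃ s1 s2 s3 : St,
    t1 + t2 + t3 + t4 ≤ 10 * y.length + 10 * z.length + 4 ∧
      Run A (mov 1 3) (ini x z y) s1 t1 [] ∧ Run A (mov 2 4) s1 s2 t2 [] ∧ Run A (mov 3 2) s2 s3 t3 [] ∧
      Run A (mov 4 1) s3 (ini x y z) t4 [] := by
  obtain ⟨t1, h1, r1⟩ := cm_mov (A := A) (a := 1) (b := 3) (by norm_num) z (ini x z y) rfl
  set s1 : St := Function.update (Function.update (ini x z y) 1 []) 3 (z.reverse ++ ini x z y 3) with hs1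
  obtain ⟨t2, h2, r2⟩ := cm_mov (A := A) (a := 2) (b := 4) (by norm_num) y s1 (by simp [hs1, ini])
  set s2 : St := Function.update (Function.update s1 2 []) 4 (y.reverse ++ s1 4) with hs2
  obtain ⟨t3, h3, r3⟩ := cm_mov (A := A) (a := 3) (b := 2) (by norm_num) z.reverse s2 (by simp [hs2, hs1, ini])
  set s3 : St := Function.update (Function.update s2 3 []) 2 (z.reverse.reverse ++ s2 2) with hs3
  obtain ⟨t4, h4, r4⟩ := cm_mov (A := A) (a := 4) (b := 1) (by norm_num) y.reverse s3
    (by simp [hs3, hs2, hs1, ini])
  rw [List.length_reverse] at h3 h4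
  refine ⟨t1, t2, t3, t4, s1, s2, s3, by omega, r1, r2, r3, ?_⟩
  have e : Function.update (Function.update s3 4 []) 1 (y.reverse.reverse ++ s3 1) = ini x y z := by
    funext k
    by_cases k1 : k = 1
    · subst k1
      simp [hs3, hs2, hs1, ini]
    by_cases k4 : k = 4
    · subst k4
      simp [ini]
    by_cases k2 : k = 2
    · subst k2
      simp [hs3, hs2, hs1, ini]
    by_cases k3 : k = 3
    · subst k3
      simp [hs3, ini]
    rw [Function.update_of_ne k1, Function.update_of_ne k4, hs3, Function.update_of_ne k2,
      Function.update_of_ne k3, hs2, Function.update_of_ne k4, Function.update_of_ne k2, hs1,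
      Function.update_of_ne k3, Function.update_of_ne k1]
    simp [ini, k1, k2]
  rw [e] at r4
  exact r4

theorem Out.cmp {A : Orc} {Q : Prog} {T : ℕ} {x y z : Word} {v : Bool} (h : Out A Q T x y z v) :
    Out A (cmp Q) (T + 30 * (y.length + z.length + 1)) x z y (!v) := by
  obtain ⟨s, t, q, ht, hr, hv⟩ := h
  obtain ⟨t1, t2, t3, t4, s1, s2, s3, hT, r1, r2, r3, r4⟩ := cm_swap (A := A) x y z
  have hn : Run A (.ite 0 (.push 0 false) (.push 0 true)) s (Function.update s 0 ((!v) :: s 0)) (1 + 1) [] := by
    cases v with
    | true => exact Run.iteT hv (Run.push 0 false s)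
    | false => exact Run.iteF (by rw [hv]; simp) (Run.push 0 true s)
  refine ⟨Function.update s 0 ((!v) :: s 0), _, _, ?_,
    Run.seq r1 (Run.seq r2 (Run.seq r3 (Run.seq r4 (Run.seq hr hn)))), ?_⟩
  · omega
  · rw [Function.update_self]
    rfl

theorem InO2.compl {A : Orc} {L : Set Word} (h : InO2 A L) : InO2 A Lᶜ := by
  obtain ⟨Q, T, m, h1, h2⟩ := h
  have hT : ∀ n : ℕ, (T + 30 * (m + m + 1)).eval n = T.eval n + 30 * (m.eval n + m.eval n + 1) := fun n => by simp
  refine ⟨Pool.Agent.Lib.MP_2254b5_lc.cmp Q, T + 30 * (m + m + 1), m, ?_, ?_⟩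
  · intro x y z hy hz
    obtain ⟨v, hv⟩ := h1 x z y hz hy
    have h3 := hv.cmp
    rw [hy, hz, ← hT] at h3
    exact ⟨_, h3⟩
  · intro n
    obtain ⟨y, z, hy, hz, h⟩ := h2 n
    refine ⟨z, y, hz, hy, fun x hx => ⟨fun hxL z' hz' => ?_, fun hxL y' hy' => ?_⟩⟩
    · have h3 := ((h x hx).2 hxL z' hz').cmp
      rw [hz, hz', ← hT] at h3
      exact h3
    · have h3 := ((h x hx).1 (by simpa using hxL) y' hy').cmp
      rw [hy, hy', ← hT] at h3
      exact h3

end Pool.Agent.Lib.MP_2254b5_lc
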