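import Pool.Agent.Lib.MP_2254b5_lc.Step

/-!
# MP_2254b5_lc / Constr (row CO, about 150 lines): the construction of the oracle

STATEMENT: below, verbatim.

PROOF. If `M` is empty take `A = fun _ => false` (nothing to prove). Otherwise `Prog × M × ℕ` is countable and not empty, let `E i = (Q i, m i, _)` be a surjection from `ℕ` (`exists_surjective_nat`); every pair `(Q, m)` occurs at infinitely many `i` (the third component; a surjection onto a product with `ℕ` takes infinitely many values there).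
Recursion: states `(F, b)`, `F : Orc` (a finite set of words, all of length `< b`), `b : ℕ`; start `(fun _ => false, 0)`. Stage `i` with state `(F, b)`: let `n = b`, `T = (2^n - 1)/2`, `mm = m i n`, `x = 1^n`. If `2 * 2^mm ≤ 3 * acc F (Q i) T mm x` take `u` from `step` (`u.length = n`, `2 T < 2^n`) and `F' = Function.update F u true`, otherwise `F' = F`. `b' = n + mm + T + 1`.
Invariants: `F w = false` for `b ≤ w.length`; `F' w = F w` for `w.length < b`; `b < b'`, so `i ≤ b i`. Let `A w = F_{w.length + 1} w`. Then `A w = F_j w` whenever `w.length < b_j` (all the later changes are at lengths `≥ b_j`; `F_{w.length+1}` is one of them as `w.length < b_{w.length + 1}`).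
Given `Q`, `m`, `n₀`: take `i ≥ n₀` with `E i = (Q, m, _)`, `n = b_i ≥ i ≥ n₀`. `A` and `F' = F_{i+1}` agree on the words of length `< b_{i+1} = n + mm + T + 1`, so `acc A Q T mm x = acc F' Q T mm x` (`acc_congr` with `n + mm` in place of `M`). If the first case occurred: `A u = F' u = true` (`u.length = n < b_{i+1}`) and `2^mm < 3 acc`: the second alternative. Otherwise `F' = F` has no word of length `n = b`, so `A w = F' w = false` for all `w` of length `n`, and `3 acc < 2 * 2^mm`: the first alternative.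
-/

namespace Pool.Agent.Lib.MP_2254b5_lc

private theorem stage (F : Orc) (b : ℕ) (Q : Prog) (mm : ℕ) (hF : ∀ w : Word, b ≤ w.length → F w = false) :
    ∃ F' : Orc, (∀ w : Word, w.length < b → F' w = F w) ∧
      (∀ w : Word, b + mm + (2 ^ b - 1) / 2 + 1 ≤ w.length → F' w = false) ∧
      ∀ A : Orc, (∀ w : Word, w.length < b + mm + (2 ^ b - 1) / 2 + 1 → A w = F' w) →
        ((∀ w : Word, w.length = b → A w = false) ∧
          3 * acc A Q ((2 ^ b - 1) / 2) mm (List.replicate b true) < 2 * 2 ^ mm) ∨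
        ((∃ w : Word, w.length = b ∧ A w = true) ∧
          2 ^ mm < 3 * acc A Q ((2 ^ b - 1) / 2) mm (List.replicate b true)) := by
  have hcongr : ∀ A F' : Orc, (∀ w : Word, w.length < b + mm + (2 ^ b - 1) / 2 + 1 → A w = F' w) →
      acc A Q ((2 ^ b - 1) / 2) mm (List.replicate b true) =
        acc F' Q ((2 ^ b - 1) / 2) mm (List.replicate b true) := by
    intro A F' h
    refine acc_congr (M := b + mm) ?_ (by omega) fun w hw => h w (by omega)
    rw [List.length_replicate]
    omega
  by_cases hc : 2 * 2 ^ mm ≤ 3 * acc F Q ((2 ^ b - 1) / 2) mm (List.replicate b true)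
  · obtain ⟨u, hu, hu'⟩ := step F Q ((2 ^ b - 1) / 2) mm b (List.replicate b true)
      (by have := Nat.two_pow_pos b; omega) hc
    refine ⟨Function.update F u true, fun w hw => ?_, fun w hw => ?_, fun A hA => Or.inr ⟨⟨u, hu, ?_⟩, ?_⟩⟩
    · rw [Function.update_of_ne]
      rintro rfl
      omega
    · rw [Function.update_of_ne]
      · exact hF w (by omega)
      · rintro rfl
        omega
    · rw [hA u (by omega), Function.update_self]
    · rw [hcongr A _ hA]
      exact hu'
  · refine ⟨F, fun w _ => rfl, fun w hw => hF w (by omega), fun A hA => Or.inl ⟨fun w hw => ?_, ?_⟩⟩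
    · rw [hA w (by omega)]
      exact hF w hw.ge
    · rw [hcongr A _ hA]
      omega

theorem exists_oracle (M : Set (ℕ → ℕ)) (hM : M.Countable) :
    ∃ A : Orc, ∀ (Q : Prog) (m : ℕ → ℕ), m ∈ M → ∀ n₀ : ℕ, ∃ n ≥ n₀,
      ((∀ w : Word, w.length = n → A w = false) ∧
        3 * acc A Q ((2 ^ n - 1) / 2) (m n) (List.replicate n true) < 2 * 2 ^ m n) ∨
      ((∃ w : Word, w.length = n ∧ A w = true) ∧
        2 ^ m n < 3 * acc A Q ((2 ^ n - 1) / 2) (m n) (List.replicate n true)) := by
  rcases M.eq_empty_or_nonempty with rfl | hne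
  · exact ⟨fun _ => false, fun Q m hm => absurd hm (Set.notMem_empty m)⟩
  have : Countable M := hM.to_subtype
  have : Nonempty M := hne.to_subtype
  have : Nonempty Prog := ⟨.skip⟩
  obtain ⟨e, he⟩ := exists_surjective_nat (Prog × M × ℕ)
  have key : ∀ (i : ℕ) (s : {s : Orc × ℕ // ∀ w : Word, s.2 ≤ w.length → s.1 w = false}),
      ∃ s' : {s : Orc × ℕ // ∀ w : Word, s.2 ≤ w.length → s.1 w = false},
        s.1.2 < s'.1.2 ∧ (∀ w : Word, w.length < s.1.2 → s'.1.1 w = s.1.1 w) ∧
        ∀ A : Orc, (∀ w : Word, w.length < s'.1.2 → A w = s'.1.1 w) →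
          ((∀ w : Word, w.length = s.1.2 → A w = false) ∧
            3 * acc A (e i).1 ((2 ^ s.1.2 - 1) / 2) ((e i).2.1.1 s.1.2) (List.replicate s.1.2 true) <
              2 * 2 ^ (e i).2.1.1 s.1.2) ∨
          ((∃ w : Word, w.length = s.1.2 ∧ A w = true) ∧
            2 ^ (e i).2.1.1 s.1.2 <
              3 * acc A (e i).1 ((2 ^ s.1.2 - 1) / 2) ((e i).2.1.1 s.1.2) (List.replicate s.1.2 true)) := by
    rintro i ⟨⟨F, b⟩, hF⟩
    obtain ⟨F', h1, h2, h3⟩ := stage F b (e i).1 ((e i).2.1.1 b) hF
    exact ⟨⟨(F', b + (e i).2.1.1 b + (2 ^ b - 1) / 2 + 1), h2⟩, by dsimp only; omega, h1, h3⟩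
  choose nx hn1 hn2 hn3 using key
  let st : ℕ → {s : Orc × ℕ // ∀ w : Word, s.2 ≤ w.length → s.1 w = false} :=
    fun i => Nat.rec ⟨(fun _ => false, 0), fun _ _ => rfl⟩ (fun i s => nx i s) i
  have hst : ∀ i, st (i + 1) = nx i (st i) := fun _ => rfl
  have hlt : ∀ i, (st i).1.2 < (st (i + 1)).1.2 := fun i => by
    rw [hst]
    exact hn1 i _
  have hid : ∀ i, i ≤ (st i).1.2 := fun i => (strictMono_nat_of_lt_succ (f := fun i => (st i).1.2) hlt).le_apply
  have hmono : ∀ i j, i ≤ j → (st i).1.2 ≤ (st j).1.2 := fun i j h =>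
    (strictMono_nat_of_lt_succ (f := fun i => (st i).1.2) hlt).monotone h
  have hag : ∀ i j, i ≤ j → ∀ w : Word, w.length < (st i).1.2 → (st j).1.1 w = (st i).1.1 w := by
    intro i j hij w hw
    induction j, hij using Nat.le_induction with
    | base => rfl
    | succ j hij ih =>
      rw [← ih, hst]
      exact hn2 j _ w (hw.trans_le (hmono i j hij))
  have hA : ∀ (j : ℕ) (w : Word), w.length < (st j).1.2 →
      (st (w.length + 1)).1.1 w = (st j).1.1 w := by
    intro j w hw
    rcases le_total (w.length + 1) j with h | h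
    · exact (hag _ _ h w (hid (w.length + 1))).symm
    · exact hag _ _ h w hw
  refine ⟨fun w => (st (w.length + 1)).1.1 w, fun Q m hm n₀ => ?_⟩
  have hinf : {i : ℕ | (e i).1 = Q ∧ (e i).2.1 = ⟨m, hm⟩}.Infinite := by
    choose g hg using he
    refine Set.infinite_of_injective_forall_mem (f := fun k : ℕ => g (Q, ⟨m, hm⟩, k)) ?_ ?_
    · intro k l hkl
      have h1 : e (g (Q, ⟨m, hm⟩, k)) = e (g (Q, ⟨m, hm⟩, l)) := congrArg e hkl
      rw [hg, hg] at h1
      exact congrArg (fun t => t.2.2) h1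
    · intro k
      rw [Set.mem_setOf_eq, hg]
      exact ⟨rfl, rfl⟩
  obtain ⟨i, ⟨hi1, hi2⟩, hi⟩ := hinf.exists_gt n₀
  refine ⟨(st i).1.2, hi.le.trans (hid i), ?_⟩
  have h := hn3 i (st i) (fun w => (st (w.length + 1)).1.1 w) fun w hw => by
    rw [← hst] at hw ⊢
    exact hA (i + 1) w hw
  rw [hi1, hi2] at h
  exact h

end Pool.Agent.Lib.MP_2254b5_lc
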