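import Pool.Agent.Lib.MP_2254b5_lc.Stage

/-!
# MP_2254b5_lc / Constr2 (row C2, about 180 lines): the construction of the oracle, with passwords

STATEMENT: below, verbatim. (Compare `exists_oracle` in Constr.lean, helper43: the same recursion.)

PROOF. If `M` is empty use one function for it (or take the start oracle). `Prog × M × ℕ` is countable and not empty, `F i = (Q i, m i, _)` a surjection from `ℕ`; every pair `(Q, m)` occurs for arbitrarily large `i`.
Start: `A_0` from `exists_over E (fun _ => false) []`, `p_0 N = pw [] N`, `b_0 = 1` (for `1 ≤ w.length` the word `false :: w` is not exceptional, so `A_0 (false :: w) = false`).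
Recursion on states `(A, p, b)` with the two properties `hp`, `hb` of `stage`: `(A_{i+1}, p_{i+1})` from `stage` with `b = b_i`, `Q i`, `m i b_i`, and `b_{i+1} = b_i + m i b_i + (2^b_i - 1)/2 + 1 ≥ b_i + 1`. (Best: a subtype of triples, and `Classical.choose`.) So `b_i > i`, `A_j w = A_i w` for `w.length ≤ b_i`, `i ≤ j`, and `p_j N = p_i N` for `N < b_i`, `i ≤ j`.
Limit: `A w = A_{w.length} w`, `p N = p_N N`; then `A w = A_j w` whenever `w.length ≤ b_j`, and `p N = p_j N` whenever `N < b_j`.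
`Right A E N (p N)`: for `e, x` with `x.length + m + T ≤ N` let `w = qcod N e x (p N)` and `j = w.length + N`: `A w = A_j w`, `p N = p_j N`, `Right A_j E N (p_j N)`, and `A`, `A_j` agree on the words of length `≤ N ≤ b_j` (`Out.agree` with `x.length + m`). The length of `p N` is `N`.
Given `Q`, `m`, `n₀`: `i ≥ n₀` with `F i = (Q, m, _)`, `n = b_i > i ≥ n₀`. `A` and `A_{i+1}` agree on the words of length `≤ b_{i+1}`, so on those of length `≤ (n + m n) + (2^n - 1)/2` and on the words `false :: w` with `w.length = n` (`n + 1 ≤ b_{i+1}`); `acc_congr` with `n + m n` in place of `M`.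
-/

namespace Pool.Agent.Lib.MP_2254b5_lc

/-- one stage, for all oracles that agree with the new one up to the new bound -/
private theorem stage2 (E : ℕ → Prog × (ℕ → ℕ) × (ℕ → ℕ)) (A : Orc) (p : ℕ → Word) (b : ℕ)
    (hp : ∀ N, Right A E N (p N)) (hb : ∀ w : Word, b ≤ w.length → A (false :: w) = false)
    (Q : Prog) (m : ℕ) :
    ∃ (A' : Orc) (p' : ℕ → Word), (∀ N, Right A' E N (p' N)) ∧
      (∀ w : Word, b + m + (2 ^ b - 1) / 2 + 1 ≤ w.length → A' (false :: w) = false) ∧
      (∀ N < b, p' N = p N) ∧ (∀ w : Word, w.length ≤ b → A' w = A w) ∧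
      ∀ C : Orc, (∀ w : Word, w.length ≤ b + m + (2 ^ b - 1) / 2 + 1 → C w = A' w) →
        ((∀ w : Word, w.length = b → C (false :: w) = false) ∧
          3 * acc C Q ((2 ^ b - 1) / 2) m (List.replicate b true) < 2 * 2 ^ m) ∨
        ((∃ w : Word, w.length = b ∧ C (false :: w) = true) ∧
          2 ^ m < 3 * acc C Q ((2 ^ b - 1) / 2) m (List.replicate b true)) := by
  obtain ⟨A', p', h1, h2, h3, h4, h5⟩ := stage E A p b hp hb Q m
  refine ⟨A', p', h1, fun w hw => h4 w (by omega), h2, h3, fun C hC => ?_⟩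
  have hacc : acc C Q ((2 ^ b - 1) / 2) m (List.replicate b true) =
      acc A' Q ((2 ^ b - 1) / 2) m (List.replicate b true) := by
    refine acc_congr (M := b + m) ?_ (by omega) fun w hw => hC w (by omega)
    rw [List.length_replicate]
    omega
  have hfw : ∀ w : Word, w.length = b → C (false :: w) = A' (false :: w) := fun w hw =>
    hC _ (by rw [List.length_cons, hw]; omega)
  rw [hacc]
  rcases h5 with ⟨h6, h7⟩ | ⟨⟨w, hw, hw'⟩, h7⟩
  · exact Or.inl ⟨fun w hw => (hfw w hw).trans (h6 w hw), h7⟩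
  · exact Or.inr ⟨⟨w, hw, (hfw w hw).trans hw'⟩, h7⟩

/-- the start -/
private theorem start2 (E : ℕ → Prog × (ℕ → ℕ) × (ℕ → ℕ)) :
    ∃ A : Orc, (∀ N, Right A E N (pw [] N)) ∧ ∀ w : Word, 1 ≤ w.length → A (false :: w) = false := by
  obtain ⟨W, _, h2, h3⟩ := exists_over E (fun _ => false) []
  refine ⟨W, fun N => h3 N (Nat.zero_le N), fun w hw => ?_⟩
  refine h2 _ (fun h => ?_) (fun N e x _ h => ?_)
  · rw [List.cons.injEq] at h
    rw [h.2] at hw
    simp at hw
  · unfold qcod at h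
    simp at h

theorem exists_oracle2 (E : ℕ → Prog × (ℕ → ℕ) × (ℕ → ℕ)) (M : Set (ℕ → ℕ)) (hM : M.Countable) :
    ∃ (A : Orc) (p : ℕ → Word), (∀ N, Right A E N (p N)) ∧
      ∀ (Q : Prog) (m : ℕ → ℕ), m ∈ M → ∀ n₀ : ℕ, ∃ n ≥ n₀,
        ((∀ w : Word, w.length = n → A (false :: w) = false) ∧
          3 * acc A Q ((2 ^ n - 1) / 2) (m n) (List.replicate n true) < 2 * 2 ^ m n) ∨
        ((∃ w : Word, w.length = n ∧ A (false :: w) = true) ∧
          2 ^ m n < 3 * acc A Q ((2 ^ n - 1) / 2) (m n) (List.replicate n true)) := by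
  obtain ⟨A₀, hA₀, hb₀⟩ := start2 E
  rcases M.eq_empty_or_nonempty with rfl | hne
  · exact ⟨A₀, fun N => pw [] N, hA₀, fun Q m hm => absurd hm (Set.notMem_empty m)⟩
  have : Countable M := hM.to_subtype
  have : Nonempty M := hne.to_subtype
  have : Nonempty Prog := ⟨.skip⟩
  obtain ⟨e, he⟩ := exists_surjective_nat (Prog × M × ℕ)
  have key : ∀ (i : ℕ) (s : {s : Orc × (ℕ → Word) × ℕ // (∀ N, Right s.1 E N (s.2.1 N)) ∧
        ∀ w : Word, s.2.2 ≤ w.length → s.1 (false :: w) = false}),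
      ∃ s' : {s : Orc × (ℕ → Word) × ℕ // (∀ N, Right s.1 E N (s.2.1 N)) ∧
        ∀ w : Word, s.2.2 ≤ w.length → s.1 (false :: w) = false},
        s.1.2.2 < s'.1.2.2 ∧ (∀ N < s.1.2.2, s'.1.2.1 N = s.1.2.1 N) ∧
        (∀ w : Word, w.length ≤ s.1.2.2 → s'.1.1 w = s.1.1 w) ∧
        ∀ C : Orc, (∀ w : Word, w.length ≤ s'.1.2.2 → C w = s'.1.1 w) →
          ((∀ w : Word, w.length = s.1.2.2 → C (false :: w) = false) ∧
            3 * acc C (e i).1 ((2 ^ s.1.2.2 - 1) / 2) ((e i).2.1.1 s.1.2.2) (List.replicate s.1.2.2 true) <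
              2 * 2 ^ (e i).2.1.1 s.1.2.2) ∨
          ((∃ w : Word, w.length = s.1.2.2 ∧ C (false :: w) = true) ∧
            2 ^ (e i).2.1.1 s.1.2.2 <
              3 * acc C (e i).1 ((2 ^ s.1.2.2 - 1) / 2) ((e i).2.1.1 s.1.2.2)
                (List.replicate s.1.2.2 true)) := by
    rintro i ⟨⟨A, p, b⟩, hp, hb⟩
    obtain ⟨A', p', h1, h2, h3, h4, h5⟩ := stage2 E A p b hp hb (e i).1 ((e i).2.1.1 b)
    exact ⟨⟨(A', p', b + (e i).2.1.1 b + (2 ^ b - 1) / 2 + 1), h1, h2⟩, by dsimp only; omega, h3, h4, h5⟩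
  choose nx hn1 hn2 hn3 hn4 using key
  let st : ℕ → {s : Orc × (ℕ → Word) × ℕ // (∀ N, Right s.1 E N (s.2.1 N)) ∧
        ∀ w : Word, s.2.2 ≤ w.length → s.1 (false :: w) = false} :=
    fun i => Nat.rec ⟨(A₀, (fun N => pw [] N), 1), hA₀, hb₀⟩ (fun i s => nx i s) i
  have hst : ∀ i, st (i + 1) = nx i (st i) := fun _ => rfl
  have hlt : ∀ i, (st i).1.2.2 < (st (i + 1)).1.2.2 := fun i => by
    rw [hst]
    exact hn1 i _
  have hid : ∀ i, i < (st i).1.2.2 := by
    intro i
    induction i with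
    | zero => exact Nat.one_pos
    | succ i ih =>
      have := hlt i
      omega
  have hmono : ∀ i j, i ≤ j → (st i).1.2.2 ≤ (st j).1.2.2 := fun i j h =>
    (strictMono_nat_of_lt_succ (f := fun i => (st i).1.2.2) hlt).monotone h
  have hag : ∀ i j, i ≤ j → ∀ w : Word, w.length ≤ (st i).1.2.2 → (st j).1.1 w = (st i).1.1 w := by
    intro i j hij w hw
    induction j, hij using Nat.le_induction with
    | base => rfl
    | succ j hij ih =>
      rw [← ih, hst]
      exact hn3 j _ w (hw.trans (hmono i j hij))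
  have hpg : ∀ i j, i ≤ j → ∀ N : ℕ, N < (st i).1.2.2 → (st j).1.2.1 N = (st i).1.2.1 N := by
    intro i j hij N hN
    induction j, hij using Nat.le_induction with
    | base => rfl
    | succ j hij ih =>
      rw [← ih, hst]
      exact hn2 j _ N (hN.trans_le (hmono i j hij))
  have hA : ∀ (j : ℕ) (w : Word), w.length ≤ (st j).1.2.2 →
      (st w.length).1.1 w = (st j).1.1 w := by
    intro j w hw
    rcases le_total w.length j with h | h
    · exact (hag _ _ h w (hid w.length).le).symm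
    · exact hag _ _ h w hw
  have hP : ∀ (j N : ℕ), N < (st j).1.2.2 → (st N).1.2.1 N = (st j).1.2.1 N := by
    intro j N hN
    rcases le_total N j with h | h
    · exact (hpg _ _ h N (hid N)).symm
    · exact hpg _ _ h N hN
  refine ⟨fun w => (st w.length).1.1 w, fun N => (st N).1.2.1 N, fun N => ?_, fun Q m hm n₀ => ?_⟩
  · refine ⟨((st N).2.1 N).1, fun f x hx => ?_⟩
    obtain ⟨w, hw⟩ : ∃ w, w = qcod N f x ((st N).1.2.1 N) := ⟨_, rfl⟩
    obtain ⟨j, hj⟩ : ∃ j, j = w.length + N := ⟨_, rfl⟩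
    have hjb := hid j
    have h1 : (st N).1.2.1 N = (st j).1.2.1 N := hP j N (by omega)
    have h2 : (st w.length).1.1 w = (st j).1.1 w := hA j w (by omega)
    have h3 := ((st j).2.1 N).2 f x hx
    dsimp only
    rw [← hw, h2, hw, h1, h3]
    have h4 : ∀ u : Word, u.length ≤ (x.length + (E f).2.2 x.length) + (E f).2.1 x.length →
        (st j).1.1 u = (st u.length).1.1 u := fun u hu => (hA j u (by omega)).symm
    constructor
    · rintro ⟨y, hy, ho⟩
      exact ⟨y, hy, ho.agree (M := x.length + (E f).2.2 x.length) (by omega) (by omega) (by simp) h4⟩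
    · rintro ⟨y, hy, ho⟩
      exact ⟨y, hy, ho.agree (M := x.length + (E f).2.2 x.length) (by omega) (by omega) (by simp)
        fun u hu => (h4 u hu).symm⟩
  have hinf : {i : ℕ | (e i).1 = Q ∧ (e i).2.1 = ⟨m, hm⟩}.Infinite := by
    choose g hg using he
    refine Set.infinite_of_injective_forall_mem (f := fun k : ℕ => g (Q, ⟨m, hm⟩, k)) ?_ ?_
    · intro k l hkl
      have h1 : e (g (Q, ⟨m, hm⟩, k)) = e (g (Q, ⟨m, hm⟩, l)) := congrArg e hkl
      rw [hg, hg] at h1
      exact congrArg (fun t => t.2.2) h1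
    · intro k
      rw [Set.mem_setOf_eq, hg]
      exact ⟨rfl, rfl⟩
  obtain ⟨i, ⟨hi1, hi2⟩, hi⟩ := hinf.exists_gt n₀
  refine ⟨(st i).1.2.2, hi.le.trans (hid i).le, ?_⟩
  have h := hn4 i (st i) (fun w => (st w.length).1.1 w) fun w hw => by
    rw [← hst] at hw ⊢
    exact hA (i + 1) w hw
  rw [hi1, hi2] at h
  exact h

end Pool.Agent.Lib.MP_2254b5_lc
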