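import Pool.Agent.Lib.MP_2254b5_lc.Stage3

/-!
# MP_2254b5_lc / Constr3: the construction of the oracle, with passwords, for both kinds of protocols
-/

namespace Pool.Agent.Lib.MP_2254b5_lc

private theorem prov_congr {A C : Orc} {Q : Prog} {T m M : ℕ} {x : Word} (hx : x.length ≤ M) (hm : m ≤ M)
    (hA : ∀ w : Word, w.length ≤ M + T → C w = A w) (k : Bool) :
    ∀ C' ∈ prov C k, ∃ D ∈ prov A k, acc C' Q T m x = acc D Q T m x := by
  intro C' hC'
  cases k with
  | true =>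
    have h1 : C' = C := hC'
    rw [h1]
    exact ⟨A, rfl, acc_congr hx hm hA⟩
  | false =>
    obtain ⟨φ, rfl⟩ := hC'
    exact ⟨join A φ, ⟨φ, rfl⟩, acc_congr hx hm (join_agree φ hA)⟩

/-- one stage, for all oracles that agree with the new one up to the new bound -/
private theorem stage2 (E : ℕ → Prog × (ℕ → ℕ) × (ℕ → ℕ)) (A : Orc) (p : ℕ → Word) (b : ℕ)
    (hp : ∀ N, Right A E N (p N)) (hb : ∀ w : Word, b ≤ w.length → A (false :: w) = false)
    (Q : Prog) (m : ℕ) (k : Bool) :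
    ∃ (A' : Orc) (p' : ℕ → Word), (∀ N, Right A' E N (p' N)) ∧
      (∀ w : Word, b + m + (2 ^ b - 1) / 2 + 1 ≤ w.length → A' (false :: w) = false) ∧
      (∀ N < b, p' N = p N) ∧ (∀ w : Word, w.length ≤ b → A' w = A w) ∧
      ∀ C : Orc, (∀ w : Word, w.length ≤ b + m + (2 ^ b - 1) / 2 + 1 → C w = A' w) →
        ((∀ w : Word, w.length = b → C (false :: w) = false) ∧
          ∀ C' ∈ prov C k, 3 * acc C' Q ((2 ^ b - 1) / 2) m (List.replicate b true) < 2 * 2 ^ m) ∨
        ((∃ w : Word, w.length = b ∧ C (false :: w) = true) ∧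
          ∃ C' ∈ prov C k, 2 ^ m < 3 * acc C' Q ((2 ^ b - 1) / 2) m (List.replicate b true)) := by
  obtain ⟨A', p', h1, h2, h3, h4, h5⟩ := stage3 E A p b hp hb Q m k
  refine ⟨A', p', h1, fun w hw => h4 w (by omega), h2, h3, fun C hC => ?_⟩
  have hxl : (List.replicate b true).length ≤ b + m := by
    rw [List.length_replicate]
    omega
  have hfw : ∀ w : Word, w.length = b → C (false :: w) = A' (false :: w) := fun w hw =>
    hC _ (by rw [List.length_cons, hw]; omega)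
  rcases h5 with ⟨h6, h7⟩ | ⟨⟨w, hw, hw'⟩, C0, hC0, h7⟩
  · refine Or.inl ⟨fun w hw => (hfw w hw).trans (h6 w hw), fun C' hC' => ?_⟩
    obtain ⟨D, hD, he⟩ := prov_congr (A := A') (C := C) (Q := Q) (T := (2 ^ b - 1) / 2) (m := m)
      (M := b + m) hxl (by omega) (fun w hw => hC w (by omega)) k C' hC'
    rw [he]
    exact h7 D hD
  · refine Or.inr ⟨⟨w, hw, (hfw w hw).trans hw'⟩, ?_⟩
    obtain ⟨D, hD, he⟩ := prov_congr (A := C) (C := A') (Q := Q) (T := (2 ^ b - 1) / 2) (m := m)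
      (M := b + m) hxl (by omega) (fun w hw => (hC w (by omega)).symm) k C0 hC0
    rw [he] at h7
    exact ⟨D, hD, h7⟩

/-- the start -/
private theorem start2 (E : ℕ → Prog × (ℕ → ℕ) × (ℕ → ℕ)) :
    ∃ A : Orc, (∀ N, Right A E N (pw [] N)) ∧ ∀ w : Word, 1 ≤ w.length → A (false :: w) = false := by
  obtain ⟨W, _, h2, h3⟩ := exists_over E (fun _ => false) []
  refine ⟨W, fun N => h3 N (Nat.zero_le N), fun w hw => ?_⟩
  refine h2 _ (fun h => ?_) (fun N e x _ h => ?_)
  · rw [List.cons.injEq] at h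
    rw [h.2] at hw
    simp at hw
  · unfold qcod at h
    simp at h

theorem exists_oracle3 (E : ℕ → Prog × (ℕ → ℕ) × (ℕ → ℕ)) (M : Set (ℕ → ℕ)) (hM : M.Countable) :
    ∃ (A : Orc) (p : ℕ → Word), (∀ N, Right A E N (p N)) ∧
      ∀ (Q : Prog) (m : ℕ → ℕ) (k : Bool), m ∈ M → ∀ n₀ : ℕ, ∃ n ≥ n₀,
        ((∀ w : Word, w.length = n → A (false :: w) = false) ∧
          ∀ C ∈ prov A k, 3 * acc C Q ((2 ^ n - 1) / 2) (m n) (List.replicate n true) < 2 * 2 ^ m n) ∨
        ((∃ w : Word, w.length = n ∧ A (false :: w) = true) ∧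
          ∃ C ∈ prov A k, 2 ^ m n < 3 * acc C Q ((2 ^ n - 1) / 2) (m n) (List.replicate n true)) := by
  obtain ⟨A₀, hA₀, hb₀⟩ := start2 E
  rcases M.eq_empty_or_nonempty with rfl | hne
  · exact ⟨A₀, fun N => pw [] N, hA₀, fun Q m k hm => absurd hm (Set.notMem_empty m)⟩
  have : Countable M := hM.to_subtype
  have : Nonempty M := hne.to_subtype
  have : Nonempty Prog := ⟨.skip⟩
  obtain ⟨e, he⟩ := exists_surjective_nat (Prog × M × Bool × ℕ)
  have key : ∀ (i : ℕ) (s : {s : Orc × (ℕ → Word) × ℕ // (∀ N, Right s.1 E N (s.2.1 N)) ∧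
        ∀ w : Word, s.2.2 ≤ w.length → s.1 (false :: w) = false}),
      ∃ s' : {s : Orc × (ℕ → Word) × ℕ // (∀ N, Right s.1 E N (s.2.1 N)) ∧
        ∀ w : Word, s.2.2 ≤ w.length → s.1 (false :: w) = false},
        s.1.2.2 < s'.1.2.2 ∧ (∀ N < s.1.2.2, s'.1.2.1 N = s.1.2.1 N) ∧
        (∀ w : Word, w.length ≤ s.1.2.2 → s'.1.1 w = s.1.1 w) ∧
        ∀ C : Orc, (∀ w : Word, w.length ≤ s'.1.2.2 → C w = s'.1.1 w) →
          ((∀ w : Word, w.length = s.1.2.2 → C (false :: w) = false) ∧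
            ∀ C' ∈ prov C (e i).2.2.1,
              3 * acc C' (e i).1 ((2 ^ s.1.2.2 - 1) / 2) ((e i).2.1.1 s.1.2.2) (List.replicate s.1.2.2 true) <
              2 * 2 ^ (e i).2.1.1 s.1.2.2) ∨
          ((∃ w : Word, w.length = s.1.2.2 ∧ C (false :: w) = true) ∧
            ∃ C' ∈ prov C (e i).2.2.1, 2 ^ (e i).2.1.1 s.1.2.2 <
              3 * acc C' (e i).1 ((2 ^ s.1.2.2 - 1) / 2) ((e i).2.1.1 s.1.2.2)
                (List.replicate s.1.2.2 true)) := by
    rintro i ⟨⟨A, p, b⟩, hp, hb⟩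
    obtain ⟨A', p', h1, h2, h3, h4, h5⟩ := stage2 E A p b hp hb (e i).1 ((e i).2.1.1 b) (e i).2.2.1
    exact ⟨⟨(A', p', b + (e i).2.1.1 b + (2 ^ b - 1) / 2 + 1), h1, h2⟩, by dsimp only; omega, h3, h4, h5⟩
  choose nx hn1 hn2 hn3 hn4 using key
  let st : ℕ → {s : Orc × (ℕ → Word) × ℕ // (∀ N, Right s.1 E N (s.2.1 N)) ∧
        ∀ w : Word, s.2.2 ≤ w.length → s.1 (false :: w) = false} :=
    fun i => Nat.rec ⟨(A₀, (fun N => pw [] N), 1), hA₀, hb₀⟩ (fun i s => nx i s) i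
  have hst : ∀ i, st (i + 1) = nx i (st i) := fun _ => rfl
  have hlt : ∀ i, (st i).1.2.2 < (st (i + 1)).1.2.2 := fun i => by
    rw [hst]
    exact hn1 i _
  have hid : ∀ i, i < (st i).1.2.2 := by
    intro i
    induction i with
    | zero => exact Nat.one_pos
    | succ i ih =>
      have := hlt i
      omega
  have hmono : ∀ i j, i ≤ j → (st i).1.2.2 ≤ (st j).1.2.2 := fun i j h =>
    (strictMono_nat_of_lt_succ (f := fun i => (st i).1.2.2) hlt).monotone h
  have hag : ∀ i j, i ≤ j → ∀ w : Word, w.length ≤ (st i).1.2.2 → (st j).1.1 w = (st i).1.1 w := by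
    intro i j hij w hw
    induction j, hij using Nat.le_induction with
    | base => rfl
    | succ j hij ih =>
      rw [← ih, hst]
      exact hn3 j _ w (hw.trans (hmono i j hij))
  have hpg : ∀ i j, i ≤ j → ∀ N : ℕ, N < (st i).1.2.2 → (st j).1.2.1 N = (st i).1.2.1 N := by
    intro i j hij N hN
    induction j, hij using Nat.le_induction with
    | base => rfl
    | succ j hij ih =>
      rw [← ih, hst]
      exact hn2 j _ N (hN.trans_le (hmono i j hij))
  have hA : ∀ (j : ℕ) (w : Word), w.length ≤ (st j).1.2.2 →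
      (st w.length).1.1 w = (st j).1.1 w := by
    intro j w hw
    rcases le_total w.length j with h | h
    · exact (hag _ _ h w (hid w.length).le).symm
    · exact hag _ _ h w hw
  have hP : ∀ (j N : ℕ), N < (st j).1.2.2 → (st N).1.2.1 N = (st j).1.2.1 N := by
    intro j N hN
    rcases le_total N j with h | h
    · exact (hpg _ _ h N (hid N)).symm
    · exact hpg _ _ h N hN
  refine ⟨fun w => (st w.length).1.1 w, fun N => (st N).1.2.1 N, fun N => ?_, fun Q m k hm n₀ => ?_⟩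
  · refine ⟨((st N).2.1 N).1, fun f x hx => ?_⟩
    obtain ⟨w, hw⟩ : ∃ w, w = qcod N f x ((st N).1.2.1 N) := ⟨_, rfl⟩
    obtain ⟨j, hj⟩ : ∃ j, j = w.length + N := ⟨_, rfl⟩
    have hjb := hid j
    have h1 : (st N).1.2.1 N = (st j).1.2.1 N := hP j N (by omega)
    have h2 : (st w.length).1.1 w = (st j).1.1 w := hA j w (by omega)
    have h3 := ((st j).2.1 N).2 f x hx
    dsimp only
    rw [← hw, h2, hw, h1, h3]
    have h4 : ∀ u : Word, u.length ≤ (x.length + (E f).2.2 x.length) + (E f).2.1 x.length →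
        (st j).1.1 u = (st u.length).1.1 u := fun u hu => (hA j u (by omega)).symm
    constructor
    · rintro ⟨y, hy, ho⟩
      exact ⟨y, hy, ho.agree (M := x.length + (E f).2.2 x.length) (by omega) (by omega) (by simp) h4⟩
    · rintro ⟨y, hy, ho⟩
      exact ⟨y, hy, ho.agree (M := x.length + (E f).2.2 x.length) (by omega) (by omega) (by simp)
        fun u hu => (h4 u hu).symm⟩
  have hinf : {i : ℕ | (e i).1 = Q ∧ (e i).2.1 = ⟨m, hm⟩ ∧ (e i).2.2.1 = k}.Infinite := by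
    choose g hg using he
    refine Set.infinite_of_injective_forall_mem (f := fun j : ℕ => g (Q, ⟨m, hm⟩, k, j)) ?_ ?_
    · intro j l hkl
      have h1 : e (g (Q, ⟨m, hm⟩, k, j)) = e (g (Q, ⟨m, hm⟩, k, l)) := congrArg e hkl
      rw [hg, hg] at h1
      exact congrArg (fun t => t.2.2.2) h1
    · intro j
      rw [Set.mem_ofPred_eq, hg]
      exact ⟨rfl, rfl, rfl⟩
  obtain ⟨i, ⟨hi1, hi2, hi3⟩, hi⟩ := hinf.exists_gt n₀
  refine ⟨(st i).1.2.2, hi.le.trans (hid i).le, ?_⟩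
  have h := hn4 i (st i) (fun w => (st w.length).1.1 w) fun w hw => by
    rw [← hst] at hw ⊢
    exact hA (i + 1) w hw
  rw [hi1, hi2, hi3] at h
  exact h

end Pool.Agent.Lib.MP_2254b5_lc
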