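import Mathlib

/-!
# MP_2254b5_lc: oracle programs on stacks of bits and the relativized classes

`Prog`: structured programs on stacks of bits, with an oracle instruction (the usual multi-stack
machines, up to polynomials). `Run A P s s' t q`: big-step semantics, with the running time `t` and
the list `q` of the words the oracle `A` was asked.
-/

namespace Pool.Agent.Lib.MP_2254b5_lc

/-- Words over the alphabet `{0, 1}`. -/
abbrev Word : Type := List Bool

/-- Oracles: sets of words. -/
abbrev Orc : Type := Word → Bool

/-- States: the contents of the stacks `0, 1, 2, ...`. -/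
abbrev St : Type := ℕ → Word

/-- Structured programs: push a bit on stack `k`, pop stack `k`, ask the oracle (the word on stack
`k` is replaced by the one bit answer), composition, branching on the top bit of stack `k` being
`true`, and `loop k P`: repeat `P` while stack `k` is not empty. -/
inductive Prog : Type
  | skip : Prog
  | push (k : ℕ) (b : Bool) : Prog
  | pop (k : ℕ) : Prog
  | ask (k : ℕ) : Prog
  | seq (P Q : Prog) : Prog
  | ite (k : ℕ) (P Q : Prog) : Prog
  | loop (k : ℕ) (P : Prog) : Prog
  deriving Countable

/-- `Run A P s s' t q`: with the oracle `A` the program `P` leads from the state `s` to the state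
`s'` in `t` steps, and `q` is the list of the words it asks. -/
inductive Run (A : Orc) : Prog → St → St → ℕ → List Word → Prop
  | skip (s : St) : Run A .skip s s 1 []
  | push (k : ℕ) (b : Bool) (s : St) : Run A (.push k b) s (Function.update s k (b :: s k)) 1 []
  | pop (k : ℕ) (s : St) : Run A (.pop k) s (Function.update s k (s k).tail) 1 []
  | ask (k : ℕ) (s : St) : Run A (.ask k) s (Function.update s k [A (s k)]) 1 [s k]
  | seq {P Q : Prog} {s s' s'' : St} {t t' : ℕ} {q q' : List Word}
      (h : Run A P s s' t q) (h' : Run A Q s' s'' t' q') : Run A (.seq P Q) s s'' (t + t') (q ++ q')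
  | iteT {k : ℕ} {P Q : Prog} {s s' : St} {t : ℕ} {q : List Word}
      (hk : (s k).head? = some true) (h : Run A P s s' t q) : Run A (.ite k P Q) s s' (t + 1) q
  | iteF {k : ℕ} {P Q : Prog} {s s' : St} {t : ℕ} {q : List Word}
      (hk : (s k).head? ≠ some true) (h : Run A Q s s' t q) : Run A (.ite k P Q) s s' (t + 1) q
  | loopT {k : ℕ} {P : Prog} {s s' s'' : St} {t t' : ℕ} {q q' : List Word}
      (hk : s k ≠ []) (h : Run A P s s' t q) (h' : Run A (.loop k P) s' s'' t' q') :
      Run A (.loop k P) s s'' (t + t' + 1) (q ++ q')
  | loopF {k : ℕ} {P : Prog} {s : St} (hk : s k = []) : Run A (.loop k P) s s 1 []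

/-- The initial state: `x, y, z` on the stacks `0, 1, 2`, the other stacks are empty. -/
def ini (x y z : Word) : St :=
  fun k => if k = 0 then x else if k = 1 then y else if k = 2 then z else []

/-- With the oracle `A` the program `P` halts on `x, y, z` after at most `T` steps, with the bit `v`
on top of stack `0`. -/
def Out (A : Orc) (P : Prog) (T : ℕ) (x y z : Word) (v : Bool) : Prop :=
  ∃ (s : St) (t : ℕ) (q : List Word), t ≤ T ∧ Run A P (ini x y z) s t q ∧ (s 0).head? = some v

/-- The class `P`, relative to `A`. -/
def InP (A : Orc) (L : Set Word) : Prop :=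
  ∃ (Q : Prog) (T : Polynomial ℕ), ∀ x : Word,
    (x ∈ L → Out A Q (T.eval x.length) x [] [] true) ∧
    (x ∉ L → Out A Q (T.eval x.length) x [] [] false)

/-- The class `coNP`, relative to `A`. -/
def InCoNP (A : Orc) (L : Set Word) : Prop :=
  ∃ (Q : Prog) (T m : Polynomial ℕ), ∀ x : Word,
    (∀ z : Word, z.length = m.eval x.length → ∃ v, Out A Q (T.eval x.length) x [] z v) ∧
    (x ∈ L ↔ ∀ z : Word, z.length = m.eval x.length → Out A Q (T.eval x.length) x [] z true)

/-- The class `S_2^p`, relative to `A`: symmetric alternation. -/
def InS2 (A : Orc) (L : Set Word) : Prop :=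
  ∃ (Q : Prog) (T m : Polynomial ℕ), ∀ x : Word,
    (∀ y z : Word, y.length = m.eval x.length → z.length = m.eval x.length →
      ∃ v, Out A Q (T.eval x.length) x y z v) ∧
    (x ∈ L → ∃ y : Word, y.length = m.eval x.length ∧
      ∀ z : Word, z.length = m.eval x.length → Out A Q (T.eval x.length) x y z true) ∧
    (x ∉ L → ∃ z : Word, z.length = m.eval x.length ∧
      ∀ y : Word, y.length = m.eval x.length → Out A Q (T.eval x.length) x y z false)

/-- The class `O_2^p`, relative to `A`: oblivious symmetric alternation; the winning words `y, z`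
depend only on the length `n` of the input. -/
def InO2 (A : Orc) (L : Set Word) : Prop :=
  ∃ (Q : Prog) (T m : Polynomial ℕ),
    (∀ x y z : Word, y.length = m.eval x.length → z.length = m.eval x.length →
      ∃ v, Out A Q (T.eval x.length) x y z v) ∧
    ∀ n : ℕ, ∃ y z : Word, y.length = m.eval n ∧ z.length = m.eval n ∧ ∀ x : Word, x.length = n →
      (x ∈ L → ∀ z' : Word, z'.length = m.eval n → Out A Q (T.eval n) x y z' true) ∧
      (x ∉ L → ∀ y' : Word, y'.length = m.eval n → Out A Q (T.eval n) x y' z false)

/-- The number of the coin words `r` of length `m` for which Merlin has a word `w` of length `m`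
such that the program accepts `x, r, w` within `T` steps. -/
noncomputable def acc (A : Orc) (Q : Prog) (T m : ℕ) (x : Word) : ℕ :=
  {r : Word | r.length = m ∧ ∃ w : Word, w.length = m ∧ Out A Q T x r w true}.ncard

/-- Arthur-Merlin protocols with the running time `T n` and words of length `m n`, relative to
`A`. -/
def InAMt (A : Orc) (L : Set Word) (T m : ℕ → ℕ) : Prop :=
  ∃ Q : Prog, ∀ x : Word,
    (∀ r w : Word, r.length = m x.length → w.length = m x.length →
      ∃ v, Out A Q (T x.length) x r w v) ∧
    (x ∈ L → 2 * 2 ^ m x.length ≤ 3 * acc A Q (T x.length) (m x.length) x) ∧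
    (x ∉ L → 3 * acc A Q (T x.length) (m x.length) x ≤ 2 ^ m x.length)

/-- The class `AM`, relative to `A`. -/
def InAM (A : Orc) (L : Set Word) : Prop :=
  ∃ T m : Polynomial ℕ, InAMt A L (fun n => T.eval n) (fun n => m.eval n)

/-- Tally languages: sets of words `1...1`. -/
def Tally (L : Set Word) : Prop := ∀ x ∈ L, ∀ b ∈ x, b = true

/-- The tally language of the lengths in which the oracle has no word. -/
def emp (A : Orc) : Set Word :=
  {x | (∀ b ∈ x, b = true) ∧ ∀ w : Word, w.length = x.length → A w = false}

end Pool.Agent.Lib.MP_2254b5_lc
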