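import Pool.Agent.Lib.MP_2254b5_lc.Defs

/-!
# MP_2254b5_lc: more relativized classes, passwords
-/

namespace Pool.Agent.Lib.MP_2254b5_lc

/-- The class `NP`, relative to `A`. -/
def InNP (A : Orc) (L : Set Word) : Prop :=
  ∃ (Q : Prog) (T m : Polynomial ℕ), ∀ x : Word,
    (∀ y : Word, y.length = m.eval x.length → ∃ v, Out A Q (T.eval x.length) x y [] v) ∧
    (x ∈ L ↔ ∃ y : Word, y.length = m.eval x.length ∧ Out A Q (T.eval x.length) x y [] true)

/-- The class `P/poly`, relative to `A`: the advice `a n` depends only on the length of the
input. -/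
def InPpoly (A : Orc) (L : Set Word) : Prop :=
  ∃ (Q : Prog) (T m : Polynomial ℕ) (a : ℕ → Word), (∀ n, (a n).length ≤ m.eval n) ∧ ∀ x : Word,
    (x ∈ L → Out A Q (T.eval x.length) x (a x.length) [] true) ∧
    (x ∉ L → Out A Q (T.eval x.length) x (a x.length) [] false)

/-- The tally language of the lengths `n` such that the oracle has no word `0w` with `w` of length
`n`. -/
def emp2 (A : Orc) : Set Word :=
  {x | (∀ b ∈ x, b = true) ∧ ∀ w : Word, w.length = x.length → A (false :: w) = false}

/-- The word `1 1^N 0 p 1^e 0 x`: a question with the password `p` of length `N`. -/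
def qcod (N e : ℕ) (x p : Word) : Word :=
  true :: (List.replicate N true ++ false :: (p ++ (List.replicate e true ++ false :: x)))

/-- `p` is a right password of level `N`: the oracle answers correctly all the `NP` questions about
itself (for the enumeration `E` of the programs, times and lengths) of size at most `N`. -/
def Right (A : Orc) (E : ℕ → Prog × (ℕ → ℕ) × (ℕ → ℕ)) (N : ℕ) (p : Word) : Prop :=
  p.length = N ∧ ∀ (e : ℕ) (x : Word),
    x.length + (E e).2.2 x.length + (E e).2.1 x.length ≤ N →
    (A (qcod N e x p) = true ↔ ∃ y : Word, y.length = (E e).2.2 x.length ∧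
      Out A (E e).1 ((E e).2.1 x.length) x y [] true)

/-- The password that belongs to `v`: `v` followed by ones. -/
def pw (v : Word) (N : ℕ) : Word := v ++ List.replicate (N - v.length) true

/-- The word `v` of length `n` that is hit by the word `w`: `kap n (0v) = v`, and
`kap n (qcod N e x p)` consists of the first `n` letters of `p`. -/
def kap (n : ℕ) : Word → Word
  | [] => []
  | false :: u => u
  | true :: u => ((u.dropWhile id).drop 1).take n

end Pool.Agent.Lib.MP_2254b5_lc
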