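import Pool.Agent.Lib.MP_2254b5_lc.Defs2

/-!
# MP_2254b5_lc: interactive proofs with provers given by an oracle
-/

namespace Pool.Agent.Lib.MP_2254b5_lc

/-- The oracle `A` together with the strategy `φ` of the provers: `0w` is a question to `A`, `1w` a
question to the provers. -/
def join (A φ : Orc) : Orc
  | [] => false
  | false :: w => A w
  | true :: w => φ w

/-- Interactive proofs with provers, relative to `A`, in the oracle form, with the running time `T n`
and words of length `m n`: as Arthur-Merlin protocols, but the verifier may also ask the provers,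
whose strategy `φ` is an arbitrary oracle which is fixed before the coins are tossed. -/
def InMIPt (A : Orc) (L : Set Word) (T m : ℕ → ℕ) : Prop :=
  ∃ Q : Prog, ∀ x : Word,
    (∀ (φ : Orc) (r w : Word), r.length = m x.length → w.length = m x.length →
      ∃ v, Out (join A φ) Q (T x.length) x r w v) ∧
    (x ∈ L → ∃ φ : Orc, 2 * 2 ^ m x.length ≤ 3 * acc (join A φ) Q (T x.length) (m x.length) x) ∧
    (x ∉ L → ∀ φ : Orc, 3 * acc (join A φ) Q (T x.length) (m x.length) x ≤ 2 ^ m x.length)

/-- The class `MIP`, relative to `A`. -/
def InMIP (A : Orc) (L : Set Word) : Prop :=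
  ∃ T m : Polynomial ℕ, InMIPt A L (fun n => T.eval n) (fun n => m.eval n)

/-- The oracles of the verifier: only `A`, or `A` with the strategy of the provers. -/
def prov (A : Orc) : Bool → Set Orc
  | true => {A}
  | false => Set.range (join A)

theorem join_agree {A A' : Orc} (φ : Orc) {K : ℕ} (h : ∀ w : Word, w.length ≤ K → A w = A' w) :
    ∀ w : Word, w.length ≤ K → join A φ w = join A' φ w := by
  intro w hw
  match w, hw with
  | [], _ => rfl
  | false :: u, hw =>
    simp only [List.length_cons] at hw
    exact h u (by omega)
  | true :: u, _ => rfl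

end Pool.Agent.Lib.MP_2254b5_lc
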