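import Pool.Agent.Lib.MP_2254b5_lc.Defs

/-!
# MP_2254b5_lc / Det (row DE, about 80 lines): the semantics is deterministic

STATEMENTS: below, verbatim.

PROOF. `Run.det`: induction on the first run, cases on the second one (`iteT` against `iteF` and `loopT` against `loopF` contradict each other; in the cases `seq` and `loopT` the first induction hypothesis identifies the middle state, then `subst`).
`Out.det`: the final states agree, so the top bits agree. `Out.mono`: `le_trans`. `Out.same`: by `Out.det`, `v = v'`.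
-/

namespace Pool.Agent.Lib.MP_2254b5_lc

theorem Run.det {A : Orc} {P : Prog} {s s₁ s₂ : St} {t₁ t₂ : ℕ} {q₁ q₂ : List Word}
    (h₁ : Run A P s s₁ t₁ q₁) (h₂ : Run A P s s₂ t₂ q₂) : s₁ = s₂ ∧ t₁ = t₂ ∧ q₁ = q₂ := by
  induction h₁ generalizing s₂ t₂ q₂ with
  | skip s => cases h₂; exact ⟨rfl, rfl, rfl⟩
  | push k b s => cases h₂; exact ⟨rfl, rfl, rfl⟩
  | pop k s => cases h₂; exact ⟨rfl, rfl, rfl⟩
  | ask k s => cases h₂; exact ⟨rfl, rfl, rfl⟩
  | seq h h' ih ih' =>
    cases h₂ with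
    | seq g g' =>
      obtain ⟨rfl, rfl, rfl⟩ := ih g
      obtain ⟨rfl, rfl, rfl⟩ := ih' g'
      exact ⟨rfl, rfl, rfl⟩
  | iteT hk h ih =>
    cases h₂ with
    | iteT _ g =>
      obtain ⟨rfl, rfl, rfl⟩ := ih g
      exact ⟨rfl, rfl, rfl⟩
    | iteF hk' _ => exact absurd hk hk'
  | iteF hk h ih =>
    cases h₂ with
    | iteT hk' _ => exact absurd hk' hk
    | iteF _ g =>
      obtain ⟨rfl, rfl, rfl⟩ := ih g
      exact ⟨rfl, rfl, rfl⟩
  | loopT hk h h' ih ih' =>
    cases h₂ with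
    | loopT _ g g' =>
      obtain ⟨rfl, rfl, rfl⟩ := ih g
      obtain ⟨rfl, rfl, rfl⟩ := ih' g'
      exact ⟨rfl, rfl, rfl⟩
    | loopF hk' => exact absurd hk' hk
  | loopF hk =>
    cases h₂ with
    | loopT hk' _ _ => exact absurd hk hk'
    | loopF _ => exact ⟨rfl, rfl, rfl⟩

theorem Out.det {A : Orc} {P : Prog} {T T' : ℕ} {x y z : Word} {v v' : Bool}
    (h : Out A P T x y z v) (h' : Out A P T' x y z v') : v = v' := by
  obtain ⟨s, t, q, _, hr, hv⟩ := h
  obtain ⟨s', t', q', _, hr', hv'⟩ := h'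
  obtain ⟨rfl, -, -⟩ := hr.det hr'
  rw [hv] at hv'
  exact Option.some.inj hv'

theorem Out.mono {A : Orc} {P : Prog} {T T' : ℕ} {x y z : Word} {v : Bool}
    (h : Out A P T x y z v) (hT : T ≤ T') : Out A P T' x y z v := by
  obtain ⟨s, t, q, ht, hr, hv⟩ := h
  exact ⟨s, t, q, ht.trans hT, hr, hv⟩

theorem Out.same {A : Orc} {P : Prog} {T T' : ℕ} {x y z : Word} {v v' : Bool}
    (h : Out A P T x y z v) (h' : Out A P T' x y z v') : Out A P T' x y z v := by
  rw [h.det h']
  exact h'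

end Pool.Agent.Lib.MP_2254b5_lc
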