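import Pool.Agent.Lib.MP_2254b5_lc.TChk

/-!
# MP_2254b5_lc / Emp (row EM, about 90 lines): the tally language of an oracle is in `coNP` and in `S_2^p`

STATEMENTS: below, verbatim.

PROOF. Program `tchk (.seq (.ask 2) (.ite 2 (.push 0 false) (.push 0 true)))`, `m = X`, time `10 + 20 * (X + 1)`: on `x, y, z` the part after the check halts with the negation of `A z` on top of stack `0` (stack `2` is `[A z]` after the question). So on a word `x` of ones the output is `!(A z)`, on other words it is `false` (`Out.tchk`, `Out.tchk_not`, `Out.mono`).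
`emp_S2`: `x ∈ emp A`: `y` any word of length `x.length`; all `z` of this length have `A z = false`, output `true`. `x ∉ emp A`: if `x` has a letter `false` any `z` will do; otherwise there is `z` with `A z = true`, output `false` for all `y`. `emp_coNP`: the same, with `y = []`; in the direction from right to left use `Out.det` and that there is a word of length `x.length`.
-/

namespace Pool.Agent.Lib.MP_2254b5_lc

theorem emp_tally (A : Orc) : Tally (emp A) := fun _ hx => hx.1

/-- the program after the check -/
private def emQ : Prog := .seq (.ask 2) (.ite 2 (.push 0 false) (.push 0 true))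

private theorem emQ_out (A : Orc) (x y z : Word) : Out A emQ 10 x y z (!(A z)) := by
  have h2 : ini x y z 2 = z := rfl
  have h1 : Run A (.ask 2) (ini x y z) (Function.update (ini x y z) 2 [A (ini x y z 2)]) 1 [ini x y z 2] := Run.ask 2 _
  have hs : (Function.update (ini x y z) 2 [A (ini x y z 2)]) 2 = [A z] := by
    rw [Function.update_self, h2]
  cases hA : A z with
  | true =>
    have h3 := Run.iteT (A := A) (k := 2) (P := .push 0 false) (Q := .push 0 true)
      (s := Function.update (ini x y z) 2 [A (ini x y z 2)]) (by rw [hs, hA]; rfl) (Run.push 0 false _)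
    exact ⟨_, _, _, by norm_num, Run.seq h1 h3, by rw [Function.update_self]; rfl⟩
  | false =>
    have h3 := Run.iteF (A := A) (k := 2) (P := .push 0 false) (Q := .push 0 true)
      (s := Function.update (ini x y z) 2 [A (ini x y z 2)]) (by rw [hs, hA]; decide) (Run.push 0 true _)
    exact ⟨_, _, _, by norm_num, Run.seq h1 h3, by rw [Function.update_self]; rfl⟩

/-- the running time -/
private noncomputable def emT : Polynomial ℕ := 10 + 20 * (Polynomial.X + 1)

private theorem emT_eval (n : ℕ) : emT.eval n = 10 + 20 * (n + 1) := by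
  unfold emT
  simp

private theorem em_yes {A : Orc} {x : Word} (hx : ∀ b ∈ x, b = true) (y z : Word) :
    Out A (tchk emQ) (emT.eval x.length) x y z (!(A z)) := by
  rw [emT_eval]
  exact Out.tchk hx (emQ_out A x y z)

private theorem em_no {A : Orc} {x : Word} (hx : ¬ ∀ b ∈ x, b = true) (y z : Word) :
    Out A (tchk emQ) (emT.eval x.length) x y z false := by
  rw [emT_eval]
  exact Out.mono (Out.tchk_not emQ hx) (by omega)

private theorem em_total (A : Orc) (x y z : Word) : ∃ v, Out A (tchk emQ) (emT.eval x.length) x y z v := by
  by_cases hx : ∀ b ∈ x, b = true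
  · exact ⟨_, em_yes hx y z⟩
  · exact ⟨_, em_no hx y z⟩

private theorem em_X (n : ℕ) : (Polynomial.X : Polynomial ℕ).eval n = n := Polynomial.eval_X

theorem emp_S2 (A : Orc) : InS2 A (emp A) := by
  refine ⟨tchk emQ, emT, Polynomial.X, fun x => ⟨fun y z _ _ => em_total A x y z, fun hx => ?_, fun hx => ?_⟩⟩
  · refine ⟨x, (em_X _).symm, fun z hz => ?_⟩
    rw [em_X] at hz
    have h := em_yes (A := A) hx.1 x z
    rwa [hx.2 z hz] at h
  · by_cases h1 : ∀ b ∈ x, b = true
    · have h2 : ¬ ∀ w : Word, w.length = x.length → A w = false := fun h => hx ⟨h1, h⟩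
      push Not at h2
      obtain ⟨z, hz, hA⟩ := h2
      refine ⟨z, by rw [hz, em_X], fun y _ => ?_⟩
      have h := em_yes (A := A) h1 y z
      have h3 : A z = true := by simpa using hA
      rwa [h3] at h
    · exact ⟨x, (em_X _).symm, fun y _ => em_no h1 y x⟩

theorem emp_coNP (A : Orc) : InCoNP A (emp A) := by
  refine ⟨tchk emQ, emT, Polynomial.X, fun x => ⟨fun z _ => em_total A x [] z, fun hx z hz => ?_, fun h => ?_⟩⟩
  · rw [em_X] at hz
    have h := em_yes (A := A) hx.1 [] z
    rwa [hx.2 z hz] at h
  · have h1 : ∀ b ∈ x, b = true := by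
      by_contra h1
      have h2 := Out.det (h x (em_X _).symm) (em_no (A := A) h1 [] x)
      exact Bool.noConfusion h2
    refine ⟨h1, fun w hw => ?_⟩
    have h2 := Out.det (h w (by rw [hw, em_X])) (em_yes (A := A) h1 [] w)
    cases hA : A w with
    | true => rw [hA] at h2; exact Bool.noConfusion h2
    | false => rfl

end Pool.Agent.Lib.MP_2254b5_lc
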