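import Pool.Agent.Lib.MP_2254b5_lc.TChk
import Pool.Agent.Lib.MP_2254b5_lc.Defs2

/-!
# MP_2254b5_lc / Emp2 (row E2, about 90 lines): `emp2 A` is in `coNP` and in `S_2^p`

STATEMENTS: below, verbatim.

PROOF. As in Emp.lean (helper2), with the program `tchk (.seq (.push 2 false) (.seq (.ask 2) (.ite 2 (.push 0 false) (.push 0 true))))`.
-/

namespace Pool.Agent.Lib.MP_2254b5_lc

theorem emp2_tally (A : Orc) : Tally (emp2 A) := fun _ hx => hx.1

/-- the program after the check -/
private def enQ : Prog :=
  .seq (.push 2 false) (.seq (.ask 2) (.ite 2 (.push 0 false) (.push 0 true)))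

private theorem enQ_out (A : Orc) (x y z : Word) : Out A enQ 10 x y z (!(A (false :: z))) := by
  have h2 : ini x y z 2 = z := rfl
  set s1 : St := Function.update (ini x y z) 2 (false :: ini x y z 2) with hs1
  have h0 : Run A (.push 2 false) (ini x y z) s1 1 [] := Run.push 2 false _
  have hs2 : s1 2 = false :: z := by rw [hs1, Function.update_self, h2]
  have h1 : Run A (.ask 2) s1 (Function.update s1 2 [A (s1 2)]) 1 [s1 2] := Run.ask 2 _
  have hs : (Function.update s1 2 [A (s1 2)]) 2 = [A (false :: z)] := by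
    rw [Function.update_self, hs2]
  cases hA : A (false :: z) with
  | true =>
    have h3 := Run.iteT (A := A) (k := 2) (P := .push 0 false) (Q := .push 0 true)
      (s := Function.update s1 2 [A (s1 2)]) (by rw [hs, hA]; rfl) (Run.push 0 false _)
    exact ⟨_, _, _, by norm_num, Run.seq h0 (Run.seq h1 h3), by rw [Function.update_self]; rfl⟩
  | false =>
    have h3 := Run.iteF (A := A) (k := 2) (P := .push 0 false) (Q := .push 0 true)
      (s := Function.update s1 2 [A (s1 2)]) (by rw [hs, hA]; decide) (Run.push 0 true _)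
    exact ⟨_, _, _, by norm_num, Run.seq h0 (Run.seq h1 h3), by rw [Function.update_self]; rfl⟩

/-- the running time -/
private noncomputable def enT : Polynomial ℕ := 10 + 20 * (Polynomial.X + 1)

private theorem enT_eval (n : ℕ) : enT.eval n = 10 + 20 * (n + 1) := by
  unfold enT
  simp

private theorem en_yes {A : Orc} {x : Word} (hx : ∀ b ∈ x, b = true) (y z : Word) :
    Out A (tchk enQ) (enT.eval x.length) x y z (!(A (false :: z))) := by
  rw [enT_eval]
  exact Out.tchk hx (enQ_out A x y z)

private theorem en_no {A : Orc} {x : Word} (hx : ¬ ∀ b ∈ x, b = true) (y z : Word) :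
    Out A (tchk enQ) (enT.eval x.length) x y z false := by
  rw [enT_eval]
  exact Out.mono (Out.tchk_not enQ hx) (by omega)

private theorem en_total (A : Orc) (x y z : Word) :
    ∃ v, Out A (tchk enQ) (enT.eval x.length) x y z v := by
  by_cases hx : ∀ b ∈ x, b = true
  · exact ⟨_, en_yes hx y z⟩
  · exact ⟨_, en_no hx y z⟩

private theorem en_X (n : ℕ) : (Polynomial.X : Polynomial ℕ).eval n = n := Polynomial.eval_X

theorem emp2_S2 (A : Orc) : InS2 A (emp2 A) := by
  refine ⟨tchk enQ, enT, Polynomial.X, fun x => ⟨fun y z _ _ => en_total A x y z, fun hx => ?_, fun hx => ?_⟩⟩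
  · refine ⟨x, (en_X _).symm, fun z hz => ?_⟩
    rw [en_X] at hz
    have h := en_yes (A := A) hx.1 x z
    rwa [hx.2 z hz] at h
  · by_cases h1 : ∀ b ∈ x, b = true
    · have h2 : ¬ ∀ w : Word, w.length = x.length → A (false :: w) = false := fun h => hx ⟨h1, h⟩
      push Not at h2
      obtain ⟨z, hz, hA⟩ := h2
      refine ⟨z, by rw [hz, en_X], fun y _ => ?_⟩
      have h := en_yes (A := A) h1 y z
      have h3 : A (false :: z) = true := by simpa using hA
      rwa [h3] at h
    · exact ⟨x, (en_X _).symm, fun y _ => en_no h1 y x⟩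

theorem emp2_coNP (A : Orc) : InCoNP A (emp2 A) := by
  refine ⟨tchk enQ, enT, Polynomial.X, fun x => ⟨fun z _ => en_total A x [] z, fun hx z hz => ?_, fun h => ?_⟩⟩
  · rw [en_X] at hz
    have h := en_yes (A := A) hx.1 [] z
    rwa [hx.2 z hz] at h
  · have h1 : ∀ b ∈ x, b = true := by
      by_contra h1
      have h2 := Out.det (h x (en_X _).symm) (en_no (A := A) h1 [] x)
      exact Bool.noConfusion h2
    refine ⟨h1, fun w hw => ?_⟩
    have h2 := Out.det (h w (by rw [hw, en_X])) (en_yes (A := A) h1 [] w)
    cases hA : A (false :: w) with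
    | true => rw [hA] at h2; exact Bool.noConfusion h2
    | false => rfl

end Pool.Agent.Lib.MP_2254b5_lc
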