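import Pool.Agent.Lib.MP_2254b5_lc.Det

/-!
# MP_2254b5_lc / PAM (row PM, about 50 lines): `P` is contained in `AM`

STATEMENT: below, verbatim.

PROOF. The same program and time, `m = 0`: words `r, w` of length `0` are empty. For `x ∈ L` the set of the coin words is `{[]}` (`Set.ncard_singleton`), `2 * 1 ≤ 3 * 1`. For `x ∉ L` it is empty, by `Out.det`.
-/

namespace Pool.Agent.Lib.MP_2254b5_lc

theorem InP.am {A : Orc} {L : Set Word} (h : InP A L) : InAM A L := by
  obtain ⟨Q, T, hQ⟩ := h
  refine ⟨T, 0, Q, fun x => ⟨?_, ?_, ?_⟩⟩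
  · intro r w hr hw
    have hr' : r = [] := List.length_eq_zero_iff.1 (by simpa using hr)
    have hw' : w = [] := List.length_eq_zero_iff.1 (by simpa using hw)
    subst hr' hw'
    by_cases hx : x ∈ L
    · exact ⟨true, (hQ x).1 hx⟩
    · exact ⟨false, (hQ x).2 hx⟩
  · intro hx
    have hs : {r : Word | r.length = Polynomial.eval x.length (0 : Polynomial ℕ) ∧
        ∃ w : Word, w.length = Polynomial.eval x.length (0 : Polynomial ℕ) ∧
          Out A Q (T.eval x.length) x r w true} = {([] : Word)} := by
      ext r
      simp only [Polynomial.eval_zero, List.length_eq_zero_iff, Set.mem_ofPred_eq,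
        Set.mem_singleton_iff]
      constructor
      · exact fun h => h.1
      · rintro rfl
        exact ⟨rfl, [], rfl, (hQ x).1 hx⟩
    simp only [acc]
    rw [hs, Set.ncard_singleton]
    simp
  · intro hx
    have hs : {r : Word | r.length = Polynomial.eval x.length (0 : Polynomial ℕ) ∧
        ∃ w : Word, w.length = Polynomial.eval x.length (0 : Polynomial ℕ) ∧
          Out A Q (T.eval x.length) x r w true} = ∅ := by
      ext r
      simp only [Polynomial.eval_zero, List.length_eq_zero_iff, Set.mem_ofPred_eq,
        Set.mem_empty_iff_false, iff_false]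
      rintro ⟨rfl, w, rfl, hw⟩
      exact absurd (Out.det hw ((hQ x).2 hx)) (by decide)
    simp only [acc]
    rw [hs, Set.ncard_empty]
    simp

end Pool.Agent.Lib.MP_2254b5_lc
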