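import Mathlib

/-!
# MP_2254b5_lc / PolyCnt: the polynomials with coefficients in `ℕ` are countable
-/

namespace Pool.Agent.Lib.MP_2254b5_lc

theorem poly_countable : Countable (Polynomial ℕ) := by
  have h : Function.Injective (fun p : Polynomial ℕ => (List.range (p.natDegree + 1)).map p.coeff) := by
    intro p q hpq
    simp only at hpq
    have hl := congrArg List.length hpq
    simp at hl
    ext n
    by_cases hn : n < p.natDegree + 1
    · have := congrArg (fun l => l.getD n 0) hpq
      simp only [List.getD_eq_getElem?_getD, List.getElem?_map, List.getElem?_range hn,
        List.getElem?_range (hl ▸ hn)] at this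
      simpa using this
    · rw [Polynomial.coeff_eq_zero_of_natDegree_lt (by omega),
        Polynomial.coeff_eq_zero_of_natDegree_lt (by omega)]
  exact h.countable

end Pool.Agent.Lib.MP_2254b5_lc
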