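import Mathlib

/-!
# MP_2254b5_lc / PolyPow (row PP, about 60 lines): two bounds for polynomials

STATEMENTS: below, verbatim.

PROOF. `poly_le_pow`: induction on the polynomial (`Polynomial.induction_on'`): for a monomial `a X^i`: `a n^i ≤ 2^a (n+2)^i ≤ (n+2)^(a+i)`; for a sum: `(n+2)^(2^c) + (n+2)^(2^d) ≤ 2 (n+2)^(2^max c d) ≤ (n+2)^(2^(max c d + 1))`; `k ≤ 2^k`. `poly_ev`: from `poly_le_pow` with the exponent `k = 2^c`: `2 (n+2)^k < 2^n` for large `n` (a polynomial is little-o of an exponential: `isLittleO_pow_const_const_pow_of_one_lt` or `tendsto_pow_const_div_const_pow_of_one_lt`, after `(n+2)^k ≤ (3n)^k`).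
-/

namespace Pool.Agent.Lib.MP_2254b5_lc

theorem poly_le_pow (p : Polynomial ℕ) : ∃ c : ℕ, ∀ n : ℕ, p.eval n ≤ (n + 2) ^ 2 ^ c := by
  induction p using Polynomial.induction_on' with
  | add p q hp hq =>
    obtain ⟨c, hc⟩ := hp
    obtain ⟨d, hd⟩ := hq
    refine ⟨max c d + 1, fun n => ?_⟩
    rw [Polynomial.eval_add]
    have h1 : (n + 2) ^ 2 ^ c ≤ (n + 2) ^ 2 ^ (max c d) :=
      Nat.pow_le_pow_right (by omega) (Nat.pow_le_pow_right (by norm_num) (le_max_left _ _))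
    have h3 : (n + 2) ^ 2 ^ d ≤ (n + 2) ^ 2 ^ (max c d) :=
      Nat.pow_le_pow_right (by omega) (Nat.pow_le_pow_right (by norm_num) (le_max_right _ _))
    have h4 : 2 ≤ (n + 2) ^ 2 ^ (max c d) := by
      calc 2 ≤ n + 2 := by omega
        _ = (n + 2) ^ 1 := (pow_one _).symm
        _ ≤ (n + 2) ^ 2 ^ (max c d) := Nat.pow_le_pow_right (by omega) Nat.one_le_two_pow
    have h5 := hc n
    have h6 := hd n
    calc p.eval n + q.eval n ≤ (n + 2) ^ 2 ^ (max c d) + (n + 2) ^ 2 ^ (max c d) := by omega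
      _ = 2 * (n + 2) ^ 2 ^ (max c d) := by ring
      _ ≤ (n + 2) ^ 2 ^ (max c d) * (n + 2) ^ 2 ^ (max c d) := Nat.mul_le_mul_right _ h4
      _ = (n + 2) ^ 2 ^ (max c d + 1) := by
        rw [← pow_add]
        congr 1
        rw [pow_succ]
        ring
  | monomial i a =>
    refine ⟨a + i, fun n => ?_⟩
    rw [Polynomial.eval_monomial]
    have h1 : a ≤ (n + 2) ^ a :=
      (Nat.lt_two_pow_self (n := a)).le.trans (Nat.pow_le_pow_left (by omega) a)
    have h2 : n ^ i ≤ (n + 2) ^ i := Nat.pow_le_pow_left (by omega) i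
    calc a * n ^ i ≤ (n + 2) ^ a * (n + 2) ^ i := Nat.mul_le_mul h1 h2
      _ = (n + 2) ^ (a + i) := (pow_add _ _ _).symm
      _ ≤ (n + 2) ^ 2 ^ (a + i) :=
        Nat.pow_le_pow_right (by omega) (Nat.lt_two_pow_self (n := a + i)).le

theorem poly_ev (p : Polynomial ℕ) : ∀ᶠ n : ℕ in Filter.atTop, 2 * p.eval n < 2 ^ n := by
  obtain ⟨c, hc⟩ := poly_le_pow p
  have h0 : Filter.Tendsto (fun n : ℕ => ((n : ℝ)) ^ 2 ^ c / (2 : ℝ) ^ n) Filter.atTop
      (nhds 0) := tendsto_pow_const_div_const_pow_of_one_lt (2 ^ c) (by norm_num)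
  have h1 : Filter.Tendsto (fun n : ℕ => (((n + 2 : ℕ) : ℝ)) ^ 2 ^ c / (2 : ℝ) ^ (n + 2))
      Filter.atTop (nhds 0) := h0.comp (Filter.tendsto_add_atTop_nat 2)
  filter_upwards [h1.eventually (gt_mem_nhds (show (0 : ℝ) < 1 / 8 by norm_num))] with n hn
  have h2 : (0 : ℝ) < (2 : ℝ) ^ (n + 2) := by positivity
  rw [div_lt_iff₀ h2, pow_add] at hn
  have h3 : ((n + 2 : ℕ) : ℝ) ^ 2 ^ c * 2 < (2 : ℝ) ^ n := by linarith
  have h4 : (n + 2) ^ 2 ^ c * 2 < 2 ^ n := by exact_mod_cast h3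
  have h5 := hc n
  omega

end Pool.Agent.Lib.MP_2254b5_lc
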