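import Pool.Agent.Lib.MP_2254b5_lc.Pad
import Pool.Agent.Lib.MP_2254b5_lc.PolyPow
import Pool.Agent.Lib.MP_2254b5_lc.Det
import Pool.Agent.Lib.MP_2254b5_lc.PolyCnt

/-!
# MP_2254b5_lc / PosB (row PB, about 80 lines): an oracle with `O_2^p = P`

STATEMENT: below, verbatim.

PROOF. `Prog × Polynomial ℕ × Polynomial ℕ` is countable and not empty (`poly_countable`), let `E₀` be a surjection from `ℕ` (`exists_surjective_nat`), `E i = (Q, fun n => T.eval n, fun n => m.eval n)` for `E₀ i = (Q, T, m)`, and `B` from `exists_univ E`.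
Let `InO2 B L` with `Q, T, m`, and `E₀ e = (Q, T, m)`. `c` from `poly_le_pow (X + m + T)`. The program and time of `exists_pad c e`. For `x` of length `n`, `N = (n+2)^(2^c) ≥ n + m n + T n`, so `B (cod N e x) = true` iff `∃ y, ∀ z, Out B Q (T n) x y z true`. If `x ∈ L` this holds for the word `y` of `InO2`. If `x ∉ L` it does not: for the word `z` of `InO2` all `y` give `false` (`Out.det`). So the answer is `true` for `x ∈ L` and `false` for `x ∉ L`.
-/

namespace Pool.Agent.Lib.MP_2254b5_lc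

theorem exists_pos : ∃ B : Orc, ∀ L : Set Word, InO2 B L → InP B L := by
  have := poly_countable
  have : Nonempty (Prog × Polynomial ℕ × Polynomial ℕ) := ⟨(.skip, 0, 0)⟩
  obtain ⟨E₀, hE₀⟩ := exists_surjective_nat (Prog × Polynomial ℕ × Polynomial ℕ)
  obtain ⟨B, hB⟩ := exists_univ (fun i => ((E₀ i).1, (fun n => (E₀ i).2.1.eval n),
    (fun n => (E₀ i).2.2.eval n)))
  refine ⟨B, fun L hL => ?_⟩
  obtain ⟨Q, T, m, -, hwin⟩ := hL
  obtain ⟨e, he⟩ := hE₀ (Q, T, m)
  obtain ⟨c, hc⟩ := poly_le_pow (Polynomial.X + m + T)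
  obtain ⟨Q', T', hQ'⟩ := exists_pad c e
  refine ⟨Q', T', fun x => ?_⟩
  have h1 := hQ' B x
  have h2 := hB e ((x.length + 2) ^ 2 ^ c) x
  simp only [he] at h2
  have h3 : x.length + m.eval x.length + T.eval x.length ≤ (x.length + 2) ^ 2 ^ c := by
    have := hc x.length
    simpa using this
  have h4 := h2 h3
  obtain ⟨y, z, hy, hz, hw⟩ := hwin x.length
  obtain ⟨hw1, hw2⟩ := hw x rfl
  constructor
  · intro hx
    have h5 : B (cod ((x.length + 2) ^ 2 ^ c) e x) = true :=
      h4.2 ⟨y, hy, fun z' hz' => hw1 hx z' hz'⟩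
    rw [h5] at h1
    exact h1
  · intro hx
    have h5 : B (cod ((x.length + 2) ^ 2 ^ c) e x) = false := by
      by_contra hne
      have ht : B (cod ((x.length + 2) ^ 2 ^ c) e x) = true := by simpa using hne
      obtain ⟨y', hy', hall⟩ := h4.1 ht
      have h6 := Out.det (hall z hz) (hw2 hx y' hy')
      simp at h6
    rw [h5] at h1
    exact h1

end Pool.Agent.Lib.MP_2254b5_lc
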