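import Pool.Agent.Lib.MP_2254b5_lc.TChk

/-!
# MP_2254b5_lc / TallyO2 (row TO, about 80 lines): tally languages of `S_2^p` are in `O_2^p`

STATEMENT: below, verbatim.

PROOF. `Q, T, m` from `InS2`. Use `tchk Q`, the time `T + 20 * (X + 1)` (as a polynomial; `Polynomial.eval_add`, `eval_mul`, ...) and `m`. Halting: `Out.tchk` or `Out.tchk_not` with `Out.mono`.
For `n` let `x₀ = List.replicate n true`; a word of length `n` all of whose letters are `true` is `x₀` (`List.eq_replicate_iff`). If `x₀ ∈ L`: `y` from `InS2`, `z` any word of length `m n`; `x ∈ L` implies `x = x₀` (`Tally`), use `Out.tchk`; `x ∉ L` implies that `x` has a letter `false`, use `Out.tchk_not`. If `x₀ ∉ L`: `z` from `InS2`, `y` any word of length `m n`; no `x` of length `n` is in `L`; for `x = x₀` use `Out.tchk`, for the other `x` `Out.tchk_not`.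
-/

namespace Pool.Agent.Lib.MP_2254b5_lc

theorem InS2.tallyO2 {A : Orc} {L : Set Word} (hL : Tally L) (h : InS2 A L) : InO2 A L := by
  obtain ⟨Q, T, m, h⟩ := h
  have hev : ∀ n : ℕ, (T + 20 * (Polynomial.X + 1)).eval n = T.eval n + 20 * (n + 1) := by
    intro n
    simp
  have hnot : ∀ (x y z : Word), (¬ ∀ b ∈ x, b = true) →
      Out A (tchk Q) ((T + 20 * (Polynomial.X + 1)).eval x.length) x y z false := by
    intro x y z hx
    rw [hev]
    exact (Out.tchk_not Q hx).mono (by omega)
  have hyes : ∀ (x y z : Word) (v : Bool), (∀ b ∈ x, b = true) →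
      Out A Q (T.eval x.length) x y z v →
      Out A (tchk Q) ((T + 20 * (Polynomial.X + 1)).eval x.length) x y z v := by
    intro x y z v hx hv
    rw [hev]
    exact Out.tchk hx hv
  refine ⟨tchk Q, T + 20 * (Polynomial.X + 1), m, ?_, ?_⟩
  · intro x y z hy hz
    by_cases hx : ∀ b ∈ x, b = true
    · obtain ⟨v, hv⟩ := (h x).1 y z hy hz
      exact ⟨v, hyes x y z v hx hv⟩
    · exact ⟨false, hnot x y z hx⟩
  · intro n
    have hlen : (List.replicate n true).length = n := List.length_replicate
    have heq : ∀ x : Word, x.length = n → (∀ b ∈ x, b = true) → x = List.replicate n true :=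
      fun x hx hb => List.eq_replicate_iff.2 ⟨hx, hb⟩
    by_cases h0 : List.replicate n true ∈ L
    · obtain ⟨y, hy, hyz⟩ := (h (List.replicate n true)).2.1 h0
      rw [hlen] at hy
      refine ⟨y, List.replicate (m.eval n) false, hy, List.length_replicate, ?_⟩
      intro x hx
      constructor
      · intro hxL z' hz'
        have hone := hL x hxL
        have hx0 := heq x hx hone
        have h1 := hyz z' (by rw [hlen]; exact hz')
        rw [← hx0] at h1
        have h2 := hyes x y z' true hone h1
        rwa [hx] at h2
      · intro hxL y' _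
        have hone : ¬ ∀ b ∈ x, b = true := by
          intro hb
          apply hxL
          rw [heq x hx hb]
          exact h0
        have h2 := hnot x y' (List.replicate (m.eval n) false) hone
        rwa [hx] at h2
    · obtain ⟨z, hz, hzy⟩ := (h (List.replicate n true)).2.2 h0
      rw [hlen] at hz
      refine ⟨List.replicate (m.eval n) false, z, List.length_replicate, hz, ?_⟩
      intro x hx
      constructor
      · intro hxL
        exact absurd (heq x hx (hL x hxL) ▸ hxL) h0
      · intro _ y' hy'
        by_cases hone : ∀ b ∈ x, b = true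
        · have hx0 := heq x hx hone
          have h1 := hzy y' (by rw [hlen]; exact hy')
          rw [← hx0] at h1
          have h2 := hyes x y' z false hone h1
          rwa [hx] at h2
        · have h2 := hnot x y' z hone
          rwa [hx] at h2

end Pool.Agent.Lib.MP_2254b5_lc
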