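import Pool.Agent.Lib.MP_2254b5_lc.Sep3
import Pool.Agent.Lib.MP_2254b5_lc.TallyO2
import Pool.Agent.Lib.MP_2254b5_lc.Emp2
import Pool.Agent.Lib.MP_2254b5_lc.PosB
import Pool.Agent.Lib.MP_2254b5_lc.PAM

/-!
# MP_2254b5_lc / Fin3: assembly
-/

namespace Pool.Agent.Lib.MP_2254b5_lc

theorem main3 :
    (∀ M : Set (ℕ → ℕ), M.Countable → ∃ A : Orc, (∀ L : Set Word, InNP A L → InPpoly A L) ∧
      ∃ L : Set Word, Tally L ∧ InCoNP A L ∧ InO2 A L ∧ ¬ InAM A L ∧ ¬ InMIP A L ∧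
        ∀ T m : ℕ → ℕ, m ∈ M → (∀ᶠ n in Filter.atTop, 2 * T n < 2 ^ n) →
          ¬ InAMt A L T m ∧ ¬ InMIPt A L T m) ∧
    ∃ B : Orc, ∀ L : Set Word, InO2 B L → InP B L ∧ InAM B L := by
  refine ⟨fun M hM => ?_, ?_⟩
  · have : Countable (Polynomial ℕ) := poly_countable
    have hc : (M ∪ Set.range (fun (p : Polynomial ℕ) (n : ℕ) => p.eval n)).Countable :=
      hM.union (Set.countable_range _)
    obtain ⟨A, hNP, hA⟩ := separation3 _ hc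
    refine ⟨A, hNP, emp2 A, emp2_tally A, emp2_coNP A, (emp2_S2 A).tallyO2 (emp2_tally A), ?_, ?_,
      fun T m hm hT => hA T m (Or.inl hm) hT⟩
    · rintro ⟨T, m, h⟩
      exact (hA _ _ (Or.inr ⟨m, rfl⟩) (poly_ev T)).1 h
    · rintro ⟨T, m, h⟩
      exact (hA _ _ (Or.inr ⟨m, rfl⟩) (poly_ev T)).2 h
  · obtain ⟨B, hB⟩ := exists_pos
    exact ⟨B, fun L h => ⟨hB L h, (hB L h).am⟩⟩

end Pool.Agent.Lib.MP_2254b5_lc
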