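import Pool.Agent.Lib.MP_2254b5_lc.Pad2
import Pool.Agent.Lib.MP_2254b5_lc.PolyPow
import Pool.Agent.Lib.MP_2254b5_lc.PolyCnt
import Pool.Agent.Lib.MP_2254b5_lc.Det

/-!
# MP_2254b5_lc / NPpoly (row NP, about 80 lines): right passwords give `NP ⊆ P/poly`

STATEMENTS: below, verbatim.

PROOF. `enum_exists`: `Prog × Polynomial ℕ × Polynomial ℕ` is countable (`poly_countable`) and not empty, `exists_surjective_nat`.
`ppoly_of_right`: `Q, T, m` from `InNP`, `e` with `E e = (Q, T.eval, m.eval)`, `c` from `poly_le_pow (X + m + T)`. The program and time of `exists_pad2 c e`, the advice `a n = p ((n + 2)^(2^c))` of length `(n + 2)^(2^c)` (a polynomial: `(X + 2)^(2^c)`). For `x` of length `n` and `N = (n + 2)^(2^c) ≥ n + m n + T n` the answer is `A (qcod N e x (p N))`, `true` iff `∃ y, y.length = m n ∧ Out A Q (T n) x y [] true` iff `x ∈ L`.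
-/

namespace Pool.Agent.Lib.MP_2254b5_lc

theorem enum_exists : ∃ E : ℕ → Prog × (ℕ → ℕ) × (ℕ → ℕ), ∀ (Q : Prog) (T m : Polynomial ℕ),
    ∃ e, E e = (Q, (fun n => T.eval n), fun n => m.eval n) := by
  have : Countable (Polynomial ℕ) := poly_countable
  have : Nonempty (Prog × Polynomial ℕ × Polynomial ℕ) := ⟨(Prog.skip, 0, 0)⟩
  obtain ⟨f, hf⟩ := exists_surjective_nat (Prog × Polynomial ℕ × Polynomial ℕ)
  refine ⟨fun e => ((f e).1, (fun n => (f e).2.1.eval n), fun n => (f e).2.2.eval n), ?_⟩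
  intro Q T m
  obtain ⟨e, he⟩ := hf (Q, T, m)
  exact ⟨e, by simp only [he]⟩

theorem ppoly_of_right (E : ℕ → Prog × (ℕ → ℕ) × (ℕ → ℕ))
    (hE : ∀ (Q : Prog) (T m : Polynomial ℕ), ∃ e, E e = (Q, (fun n => T.eval n), fun n => m.eval n))
    (A : Orc) (p : ℕ → Word) (hp : ∀ N, Right A E N (p N)) (L : Set Word) (hL : InNP A L) :
    InPpoly A L := by
  obtain ⟨Q, T, m, h⟩ := hL
  obtain ⟨e, he⟩ := hE Q T m
  obtain ⟨c, hc⟩ := poly_le_pow (Polynomial.X + m + T)
  obtain ⟨Q', T', hQ'⟩ := exists_pad2 c e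
  refine ⟨Q', T', (Polynomial.X + 2) ^ 2 ^ c, fun n => p ((n + 2) ^ 2 ^ c), ?_, ?_⟩
  · intro n
    rw [(hp _).1]
    simp
  · intro x
    obtain ⟨h1, h2⟩ := hp ((x.length + 2) ^ 2 ^ c)
    have h3 := h2 e x (by
      rw [he]
      have := hc x.length
      simpa [Polynomial.eval_add] using this)
    rw [he] at h3
    have h4 := hQ' A x (p ((x.length + 2) ^ 2 ^ c)) h1
    have h5 : A (qcod ((x.length + 2) ^ 2 ^ c) e x (p ((x.length + 2) ^ 2 ^ c))) = true ↔ x ∈ L :=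
      h3.trans (h x).2.symm
    refine ⟨fun hx => ?_, fun hx => ?_⟩
    · rw [h5.2 hx] at h4
      exact h4
    · rw [Bool.eq_false_iff.2 fun hh => hx (h5.1 hh)] at h4
      exact h4

end Pool.Agent.Lib.MP_2254b5_lc
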