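import Pool.Agent.Lib.MP_2254b5_lc.Agree
import Pool.Agent.Lib.MP_2254b5_lc.Defs2

/-!
# MP_2254b5_lc / Over (row OV, about 150 lines): a new oracle with new passwords

STATEMENTS: below, verbatim. (Compare `cod_inj`, `exists_univ` in Univ.lean, helper75.)

PROOF. `qcod_inj`: as `cod_inj`: the number of the leading letters `true` after the first letter determines `N`; then the first `N` letters are `p` (`List.append_inj` with the lengths), then `e`, then `x`.
`kap_false`, `kap_qcod`: `List.dropWhile` on `replicate N true ++ false :: _` gives `false :: _` (induction on `N`), `List.take_append_of_le_length` or `List.take_left`.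
`exists_over`: for an oracle `C` let `Φ C w` hold if `w = false :: v`, or if `w = qcod N e x (pw v N)` for some `N ≥ v.length`, `e`, `x` with `x.length + m + T ≤ N` and `∃ y, y.length = m ∧ Out C P T x y [] true` (`P, T, m` from `E e` at `x.length`). Call `w` special if `w = false :: v` or `w = qcod N e x (pw v N)` for some `N ≥ v.length`, `e`, `x`. `B_0 = A₀`; `B_{k+1} w = if w.length = k ∧ w special then decide (Φ B_k w) else B_k w`; `W w = B_{w.length + 1} w`. For `w.length < k`: `B_k w = W w`; for `w` not special `B_k w = A₀ w` for all `k`.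
`Right W E N (pw v N)`: the length of `pw v N` is `N` as `v.length ≤ N`; for `w = qcod N e x (pw v N)` with `x.length + m + T ≤ N` and `k = w.length > N`: `W w = decide (Φ B_k w)`, by `qcod_inj` (and as `w ≠ false :: v`) this is `true` iff `∃ y, Out B_k P T x y [] true`, and `B_k`, `W` agree on the words of length `≤ (x.length + m) + T ≤ N < k`, so `Out.agree` in both directions.
-/

namespace Pool.Agent.Lib.MP_2254b5_lc

theorem pw_length {v : Word} {N : ℕ} (h : v.length ≤ N) : (pw v N).length = N := by
  unfold pw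
  rw [List.length_append, List.length_replicate]
  omega

private theorem ov_rep_inj : ∀ (N N' : ℕ) (l l' : Word),
    List.replicate N true ++ false :: l = List.replicate N' true ++ false :: l' →
      N = N' ∧ l = l'
  | 0, 0, l, l', h => by
      simp only [List.replicate_zero, List.nil_append, List.cons.injEq, true_and] at h
      exact ⟨rfl, h⟩
  | 0, N' + 1, l, l', h => by
      simp [List.replicate_succ] at h
  | N + 1, 0, l, l', h => by
      simp [List.replicate_succ] at h
  | N + 1, N' + 1, l, l', h => by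
      simp only [List.replicate_succ, List.cons_append, List.cons.injEq, true_and] at h
      obtain ⟨h1, h2⟩ := ov_rep_inj N N' l l' h
      exact ⟨by rw [h1], h2⟩

private theorem ov_drop : ∀ (N : ℕ) (l : Word),
    (List.replicate N true ++ false :: l).dropWhile id = false :: l
  | 0, l => by simp
  | N + 1, l => by
      rw [List.replicate_succ, List.cons_append, List.dropWhile_cons_of_pos (by rfl)]
      exact ov_drop N l

theorem qcod_inj {N N' e e' : ℕ} {x x' p p' : Word} (hp : p.length = N) (hp' : p'.length = N')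
    (h : qcod N e x p = qcod N' e' x' p') : N = N' ∧ e = e' ∧ x = x' ∧ p = p' := by
  unfold qcod at h
  rw [List.cons.injEq] at h
  obtain ⟨h1, h2⟩ := ov_rep_inj _ _ _ _ h.2
  obtain ⟨h3, h4⟩ := List.append_inj h2 (by rw [hp, hp', h1])
  obtain ⟨h5, h6⟩ := ov_rep_inj _ _ _ _ h4
  exact ⟨h1, h5, h6, h3⟩

theorem kap_qcod (v : Word) (N e : ℕ) (x : Word) (h : v.length ≤ N) :
    kap v.length (qcod N e x (pw v N)) = v := by
  unfold qcod kap
  simp only
  rw [ov_drop, List.drop_one, List.tail_cons]
  unfold pw
  rw [List.append_assoc]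
  exact List.take_left

private theorem ov_qcod_length (N e : ℕ) (x p : Word) : N < (qcod N e x p).length := by
  unfold qcod
  simp only [List.length_append, List.length_replicate, List.length_cons]
  omega

/-- The words at which the oracle is changed. -/
private def ovSp (v w : Word) : Prop :=
  w = false :: v ∨ ∃ (N e : ℕ) (x : Word), v.length ≤ N ∧ w = qcod N e x (pw v N)

/-- The condition that defines the oracle. -/
private def ovPhi (E : ℕ → Prog × (ℕ → ℕ) × (ℕ → ℕ)) (v : Word) (C : Orc) (w : Word) : Prop :=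
  w = false :: v ∨ ∃ (N e : ℕ) (x : Word), v.length ≤ N ∧ w = qcod N e x (pw v N) ∧
    x.length + (E e).2.2 x.length + (E e).2.1 x.length ≤ N ∧
    ∃ y : Word, y.length = (E e).2.2 x.length ∧ Out C (E e).1 ((E e).2.1 x.length) x y [] true

open Classical in
/-- The stages of the construction. -/
private noncomputable def ovStage (E : ℕ → Prog × (ℕ → ℕ) × (ℕ → ℕ)) (A₀ : Orc) (v : Word) : ℕ → Orc
  | 0 => A₀
  | n + 1 => fun w =>
      if w.length = n ∧ ovSp v w then decide (ovPhi E v (ovStage E A₀ v n) w)
      else ovStage E A₀ v n w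

private noncomputable def ovW (E : ℕ → Prog × (ℕ → ℕ) × (ℕ → ℕ)) (A₀ : Orc) (v : Word) : Orc :=
  fun w => ovStage E A₀ v (w.length + 1) w

private theorem ovStage_eq (E : ℕ → Prog × (ℕ → ℕ) × (ℕ → ℕ)) (A₀ : Orc) (v : Word) (n : ℕ) :
    ∀ w : Word, w.length < n → ovStage E A₀ v n w = ovW E A₀ v w := by
  induction n with
  | zero => intro w hw; omega
  | succ n ih =>
    intro w hw
    by_cases hn : w.length = n
    · subst hn
      rfl
    · have h1 : ovStage E A₀ v (n + 1) w = ovStage E A₀ v n w := by
        simp only [ovStage]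
        rw [if_neg (fun h => hn h.1)]
      rw [h1]
      exact ih w (by omega)

private theorem ovStage_not (E : ℕ → Prog × (ℕ → ℕ) × (ℕ → ℕ)) (A₀ : Orc) (v : Word) (n : ℕ) :
    ∀ w : Word, ¬ ovSp v w → ovStage E A₀ v n w = A₀ w := by
  induction n with
  | zero => intro w _; rfl
  | succ n ih =>
    intro w hw
    simp only [ovStage]
    rw [if_neg (fun h => hw h.2)]
    exact ih w hw

open Classical in
private theorem ovW_iff (E : ℕ → Prog × (ℕ → ℕ) × (ℕ → ℕ)) (A₀ : Orc) (v w : Word) (h : ovSp v w) :
    ovW E A₀ v w = true ↔ ovPhi E v (ovStage E A₀ v w.length) w := by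
  unfold ovW
  simp only [ovStage]
  rw [if_pos ⟨trivial, h⟩]
  exact decide_eq_true_iff

theorem exists_over (E : ℕ → Prog × (ℕ → ℕ) × (ℕ → ℕ)) (A₀ : Orc) (v : Word) :
    ∃ W : Orc, W (false :: v) = true ∧
      (∀ w : Word, w ≠ false :: v →
        (∀ (N e : ℕ) (x : Word), v.length ≤ N → w ≠ qcod N e x (pw v N)) → W w = A₀ w) ∧
      ∀ N : ℕ, v.length ≤ N → Right W E N (pw v N) := by
  refine ⟨ovW E A₀ v, ?_, fun w hw1 hw2 => ?_, fun N hN => ⟨pw_length hN, fun e x hx => ?_⟩⟩
  · rw [ovW_iff E A₀ v _ (Or.inl rfl)]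
    exact Or.inl rfl
  · refine ovStage_not E A₀ v _ w ?_
    rintro (h | ⟨N, e, x, hN, h⟩)
    · exact hw1 h
    · exact hw2 N e x hN h
  · rw [ovW_iff E A₀ v _ (Or.inr ⟨N, e, x, hN, rfl⟩)]
    have hlen := ov_qcod_length N e x (pw v N)
    have hag : ∀ w : Word, w.length ≤ x.length + (E e).2.2 x.length + (E e).2.1 x.length →
        ovStage E A₀ v (qcod N e x (pw v N)).length w = ovW E A₀ v w := fun w hw =>
      ovStage_eq E A₀ v _ w (by omega)
    constructor
    · rintro (h | ⟨N', e', x', hN', hc, _, y, hy, ho⟩)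
      · unfold qcod at h
        rw [List.cons.injEq] at h
        exact absurd h.1 (by simp)
      · obtain ⟨rfl, rfl, rfl, -⟩ := qcod_inj (pw_length hN) (pw_length hN') hc
        exact ⟨y, hy, Out.agree ho (Nat.le_add_right _ _) (by omega) (by simp) hag⟩
    · rintro ⟨y, hy, ho⟩
      exact Or.inr ⟨N, e, x, hN, rfl, hx, y, hy,
        Out.agree ho (Nat.le_add_right _ _) (by omega) (by simp) (fun w hw => (hag w hw).symm)⟩

end Pool.Agent.Lib.MP_2254b5_lc
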