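import Pool.Agent.Lib.MP_2254b5_lc.Agree

/-!
# MP_2254b5_lc / Univ (row UN, about 120 lines): an oracle that answers questions about itself

STATEMENTS: below, verbatim.

PROOF. `cod_inj`: the first `false` after the leading `true`s determines `N`, then `e`, then `x` (induction on `N`, `e`, or `List.append` lemmas).
For an oracle `C` let `Φ C w` hold if there are `N, e, x` with `w = cod N e x`, `x.length + m + T ≤ N` and `∃ y, y.length = m ∧ ∀ z, z.length = m → Out C P T x y z true` (`P, T, m` from `E e` at `x.length`). `B_0 = fun _ => false`, `B_{n+1} w = if w.length = n then decide (Φ B_n w) else B_n w` (`Nat.rec`, `Classical.propDecidable`), `B w = B_{w.length+1} w = decide (Φ B_{w.length} w)`. For `w.length < n`: `B_n w = B w` (induction on `n`).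
For `w = cod N e x`, `n = w.length > N ≥ x.length + m + T`: by `cod_inj`, `B w = true` iff `∃ y, ∀ z, Out B_n P T x y z true`; `B_n` and `B` agree on the words of length `< n`, in particular on those of length `≤ (x.length + m) + T`, so `Out B_n` and `Out B` agree by `Out.agree` with `x.length + m` in place of `M`.
-/

namespace Pool.Agent.Lib.MP_2254b5_lc

/-- The word `1^N 0 1^e 0 x`. -/
def cod (N e : ℕ) (x : Word) : Word :=
  List.replicate N true ++ false :: (List.replicate e true ++ false :: x)

private theorem un_rep_inj : ∀ (N N' : ℕ) (l l' : Word),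
    List.replicate N true ++ false :: l = List.replicate N' true ++ false :: l' →
      N = N' ∧ l = l'
  | 0, 0, l, l', h => by
      simp only [List.replicate_zero, List.nil_append, List.cons.injEq, true_and] at h
      exact ⟨rfl, h⟩
  | 0, N' + 1, l, l', h => by
      simp [List.replicate_succ] at h
  | N + 1, 0, l, l', h => by
      simp [List.replicate_succ] at h
  | N + 1, N' + 1, l, l', h => by
      simp only [List.replicate_succ, List.cons_append, List.cons.injEq, true_and] at h
      obtain ⟨h1, h2⟩ := un_rep_inj N N' l l' h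
      exact ⟨by rw [h1], h2⟩

theorem cod_inj {N N' e e' : ℕ} {x x' : Word} (h : cod N e x = cod N' e' x') :
    N = N' ∧ e = e' ∧ x = x' := by
  unfold cod at h
  obtain ⟨h1, h2⟩ := un_rep_inj _ _ _ _ h
  obtain ⟨h3, h4⟩ := un_rep_inj _ _ _ _ h2
  exact ⟨h1, h3, h4⟩

private theorem un_cod_length (N e : ℕ) (x : Word) : N < (cod N e x).length := by
  unfold cod
  simp only [List.length_append, List.length_replicate, List.length_cons]
  omega

/-- The condition that defines the oracle. -/
private def unPhi (E : ℕ → Prog × (ℕ → ℕ) × (ℕ → ℕ)) (C : Orc) (w : Word) : Prop :=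
  ∃ (N e : ℕ) (x : Word), w = cod N e x ∧
    x.length + (E e).2.2 x.length + (E e).2.1 x.length ≤ N ∧
    ∃ y : Word, y.length = (E e).2.2 x.length ∧
      ∀ z : Word, z.length = (E e).2.2 x.length →
        Out C (E e).1 ((E e).2.1 x.length) x y z true

open Classical in
/-- The stages of the construction. -/
private noncomputable def unStage (E : ℕ → Prog × (ℕ → ℕ) × (ℕ → ℕ)) : ℕ → Orc
  | 0 => fun _ => false
  | n + 1 => fun w => if w.length = n then decide (unPhi E (unStage E n) w) else unStage E n w

private noncomputable def unB (E : ℕ → Prog × (ℕ → ℕ) × (ℕ → ℕ)) : Orc :=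
  fun w => unStage E (w.length + 1) w

private theorem unStage_eq (E : ℕ → Prog × (ℕ → ℕ) × (ℕ → ℕ)) (n : ℕ) :
    ∀ w : Word, w.length < n → unStage E n w = unB E w := by
  induction n with
  | zero => intro w hw; omega
  | succ n ih =>
    intro w hw
    by_cases hn : w.length = n
    · subst hn
      rfl
    · have h1 : unStage E (n + 1) w = unStage E n w := by
        simp only [unStage, if_neg hn]
      rw [h1]
      exact ih w (by omega)

private theorem unB_iff (E : ℕ → Prog × (ℕ → ℕ) × (ℕ → ℕ)) (w : Word) :
    unB E w = true ↔ unPhi E (unStage E w.length) w := by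
  unfold unB
  simp only [unStage, if_true, decide_eq_true_eq]

theorem exists_univ (E : ℕ → Prog × (ℕ → ℕ) × (ℕ → ℕ)) :
    ∃ B : Orc, ∀ (e N : ℕ) (x : Word),
      x.length + (E e).2.2 x.length + (E e).2.1 x.length ≤ N →
      (B (cod N e x) = true ↔ ∃ y : Word, y.length = (E e).2.2 x.length ∧
        ∀ z : Word, z.length = (E e).2.2 x.length →
          Out B (E e).1 ((E e).2.1 x.length) x y z true) := by
  refine ⟨unB E, fun e N x hN => ?_⟩
  rw [unB_iff]
  have hlen := un_cod_length N e x
  have hag : ∀ w : Word, w.length ≤ x.length + (E e).2.2 x.length + (E e).2.1 x.length →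
      unStage E (cod N e x).length w = unB E w := fun w hw =>
    unStage_eq E _ w (by omega)
  constructor
  · rintro ⟨N', e', x', hc, _, y, hy, hz⟩
    obtain ⟨rfl, rfl, rfl⟩ := cod_inj hc
    refine ⟨y, hy, fun z hzl => ?_⟩
    exact Out.agree (hz z hzl) (Nat.le_add_right _ _) (by omega) (by omega) hag
  · rintro ⟨y, hy, hz⟩
    refine ⟨N, e, x, rfl, hN, y, hy, fun z hzl => ?_⟩
    exact Out.agree (hz z hzl) (Nat.le_add_right _ _) (by omega) (by omega)
      (fun w hw => (hag w hw).symm)

end Pool.Agent.Lib.MP_2254b5_lc
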