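import Pool.Agent.Lib.MP_2254b5_lc.Sqr
import Pool.Agent.Lib.MP_2254b5_lc.Univ

/-!
# MP_2254b5_lc / Pad (row PA, about 180 lines): asking the oracle a padded question

STATEMENT: below, verbatim.

PROOF. The program: (1) `.loop 0 (.seq (.ite 0 (.push 3 true) (.push 3 false)) (.seq (.push 5 true) (.pop 0)))`: stack `3 = x` reversed, stack `5 = 1^|x|`; (2) `.loop 3 (.seq (.ite 3 (.push 0 true) (.push 0 false)) (.pop 3))`: stack `0 = x` again; (3) `.push 5 true` twice; (4) `sqr`, `c` times: stack `5 = 1^N` with `N = (|x| + 2)^(2^c)` (induction on `c`, `run_sqr`, `pow_mul`, `pow_succ`); (5) `.push 0 false`, then `e` times `.push 0 true`, then `.push 0 false`; (6) `.loop 5 (.seq (.push 0 true) (.pop 5))`: stack `0 = cod N e x`; (7) `.ask 0`: stack `0 = [A (cod N e x)]`.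
Time: (1), (2) at most `6` steps per letter; (4) at most `c * 20 * (N + 1)^2`; (5) `e + 2`; (6) `3 N + 1`. In total at most the value at `|x|` of the polynomial `12 * (X + 1) + 10 + c * 20 * ((X + 2)^(2^c) + 1)^2 + e + 3 * (X + 2)^(2^c)` (or any larger one). Only one word is asked.
-/

namespace Pool.Agent.Lib.MP_2254b5_lc

private theorem pa_loop_a (A : Orc) : ∀ (w : Word) (s : St), s 0 = w → ∃ (s' : St) (t : ℕ),
    t ≤ 5 * w.length + 1 ∧
    Run A (.loop 0 (.seq (.ite 0 (.push 3 true) (.push 3 false)) (.seq (.push 5 true) (.pop 0))))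
      s s' t [] ∧
    s' 0 = [] ∧ s' 3 = w.reverse ++ s 3 ∧ s' 5 = List.replicate w.length true ++ s 5 ∧
    ∀ k, k ≠ 0 → k ≠ 3 → k ≠ 5 → s' k = s k := by
  intro w
  induction w with
  | nil =>
    intro s hs
    refine ⟨s, 1, by simp, Run.loopF hs, hs, by simp, by simp, fun k _ _ _ => rfl⟩
  | cons b w ih =>
    intro s hs
    have r1 : Run A (.ite 0 (.push 3 true) (.push 3 false)) s
        (Function.update s 3 (b :: s 3)) (1 + 1) [] := by
      cases b with
      | true => exact Run.iteT (by rw [hs]; rfl) (Run.push 3 true s)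
      | false => exact Run.iteF (by rw [hs]; simp) (Run.push 3 false s)
    have r2 := Run.seq r1 (Run.seq (Run.push (A := A) 5 true (Function.update s 3 (b :: s 3)))
      (Run.pop (A := A) 0 _))
    obtain ⟨s', t, h1, h2, h3, h4, h5, h6⟩ := ih _ (by
      show Function.update (Function.update (Function.update s 3 (b :: s 3)) 5
        (true :: (Function.update s 3 (b :: s 3)) 5)) 0 ((Function.update
        (Function.update s 3 (b :: s 3)) 5 (true :: (Function.update s 3 (b :: s 3)) 5)) 0).tail 0 = w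
      simp [hs])
    have r3 := Run.loopT (k := 0) (by rw [hs]; simp) r2 h2
    refine ⟨s', _, ?_, r3, h3, ?_, ?_, ?_⟩
    · simp only [List.length_cons]
      omega
    · rw [h4]
      simp
    · rw [h5]
      simp [List.replicate_succ']
    · intro k k0 k3 k5
      rw [h6 k k0 k3 k5]
      simp [k0, k3, k5]

private theorem pa_loop_b (A : Orc) : ∀ (w : Word) (s : St), s 3 = w → ∃ (s' : St) (t : ℕ),
    t ≤ 4 * w.length + 1 ∧
    Run A (.loop 3 (.seq (.ite 3 (.push 0 true) (.push 0 false)) (.pop 3))) s s' t [] ∧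
    s' 3 = [] ∧ s' 0 = w.reverse ++ s 0 ∧ ∀ k, k ≠ 0 → k ≠ 3 → s' k = s k := by
  intro w
  induction w with
  | nil =>
    intro s hs
    exact ⟨s, 1, by simp, Run.loopF hs, hs, by simp, fun k _ _ => rfl⟩
  | cons b w ih =>
    intro s hs
    have r1 : Run A (.ite 3 (.push 0 true) (.push 0 false)) s
        (Function.update s 0 (b :: s 0)) (1 + 1) [] := by
      cases b with
      | true => exact Run.iteT (by rw [hs]; rfl) (Run.push 0 true s)
      | false => exact Run.iteF (by rw [hs]; simp) (Run.push 0 false s)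
    have r2 := Run.seq r1 (Run.pop (A := A) 3 _)
    obtain ⟨s', t, h1, h2, h3, h4, h5⟩ := ih (Function.update (Function.update s 0 (b :: s 0)) 3
      (Function.update s 0 (b :: s 0) 3).tail) (by simp [hs])
    have r3 := Run.loopT (k := 3) (by rw [hs]; simp) r2 h2
    refine ⟨s', _, ?_, r3, h3, ?_, ?_⟩
    · simp only [List.length_cons]
      omega
    · rw [h4]
      simp
    · intro k k0 k3
      rw [h5 k k0 k3]
      simp [k0, k3]

/-- `sqr`, `c` times. -/
private def paSqrs : ℕ → Prog
  | 0 => .skip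
  | c + 1 => .seq (paSqrs c) sqr

private theorem pa_sqrs (A : Orc) (s : St) (u : ℕ) (hu : 1 ≤ u)
    (h5 : s 5 = List.replicate u true) (h6 : s 6 = []) (h7 : s 7 = []) (h8 : s 8 = []) :
    ∀ c : ℕ, ∃ t ≤ 20 * c * (u ^ 2 ^ c + 1) ^ 2 + 1,
      Run A (paSqrs c) s (Function.update s 5 (List.replicate (u ^ 2 ^ c) true)) t [] := by
  intro c
  induction c with
  | zero =>
    refine ⟨1, by simp, ?_⟩
    have hs : Function.update s 5 (List.replicate (u ^ 2 ^ 0) true) = s := by
      rw [pow_zero, pow_one, ← h5, Function.update_eq_self]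
    rw [hs]
    exact Run.skip s
  | succ c ih =>
    obtain ⟨t, ht, hr⟩ := ih
    obtain ⟨t', ht', hr'⟩ := run_sqr A
      (Function.update s 5 (List.replicate (u ^ 2 ^ c) true)) (u ^ 2 ^ c) (by simp)
      (by simp [h6]) (by simp [h7]) (by simp [h8])
    rw [Function.update_idem, ← pow_mul, ← pow_succ] at hr'
    refine ⟨t + t', ?_, Run.seq hr hr'⟩
    have hm : u ^ 2 ^ c ≤ u ^ 2 ^ (c + 1) :=
      Nat.pow_le_pow_right hu (Nat.pow_le_pow_right (by norm_num) (Nat.le_succ c))
    have h1 : (u ^ 2 ^ c + 1) ^ 2 ≤ (u ^ 2 ^ (c + 1) + 1) ^ 2 :=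
      Nat.pow_le_pow_left (Nat.add_le_add_right hm 1) 2
    have h2 : 20 * c * (u ^ 2 ^ c + 1) ^ 2 ≤ 20 * c * (u ^ 2 ^ (c + 1) + 1) ^ 2 :=
      Nat.mul_le_mul_left _ h1
    have h3 : 20 * (u ^ 2 ^ c + 1) ^ 2 ≤ 20 * (u ^ 2 ^ (c + 1) + 1) ^ 2 :=
      Nat.mul_le_mul_left _ h1
    calc t + t' ≤ (20 * c * (u ^ 2 ^ (c + 1) + 1) ^ 2 + 1)
          + 20 * (u ^ 2 ^ (c + 1) + 1) ^ 2 := by omega
      _ = 20 * (c + 1) * (u ^ 2 ^ (c + 1) + 1) ^ 2 + 1 := by ring

/-- `push 0 true`, `e` times. -/
private def paPush : ℕ → Prog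
  | 0 => .skip
  | e + 1 => .seq (paPush e) (.push 0 true)

private theorem pa_push (A : Orc) (s : St) : ∀ e : ℕ,
    Run A (paPush e) s (Function.update s 0 (List.replicate e true ++ s 0)) (e + 1) [] := by
  intro e
  induction e with
  | zero =>
    have hs : Function.update s 0 (List.replicate 0 true ++ s 0) = s := by simp
    rw [hs]
    exact Run.skip s
  | succ e ih =>
    have h := Run.seq ih (Run.push (A := A) 0 true _)
    rw [Function.update_idem, Function.update_self] at h
    have he : true :: (List.replicate e true ++ s 0) = List.replicate (e + 1) true ++ s 0 := by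
      rw [List.replicate_succ, List.cons_append]
    rw [he] at h
    exact h

private theorem pa_loop_c (A : Orc) : ∀ (n : ℕ) (s : St), s 5 = List.replicate n true →
    ∃ s' : St, Run A (.loop 5 (.seq (.push 0 true) (.pop 5))) s s' (3 * n + 1) [] ∧
      s' 0 = List.replicate n true ++ s 0 := by
  intro n
  induction n with
  | zero =>
    intro s hs
    exact ⟨s, Run.loopF (by simpa using hs), by simp⟩
  | succ n ih =>
    intro s hs
    have r1 := Run.seq (Run.push (A := A) 0 true s) (Run.pop (A := A) 5 _)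
    obtain ⟨s', h1, h2⟩ := ih _ (by
      show Function.update (Function.update s 0 (true :: s 0)) 5
        (Function.update s 0 (true :: s 0) 5).tail 5 = List.replicate n true
      simp [hs, List.replicate_succ])
    have r2 := Run.loopT (k := 5) (by rw [hs]; simp [List.replicate_succ]) r1 h1
    refine ⟨s', ?_, ?_⟩
    · have ht : 1 + 1 + (3 * n + 1) + 1 = 3 * (n + 1) + 1 := by ring
      rw [ht] at r2
      exact r2
    · rw [h2]
      simp [List.replicate_succ']

/-- The program. -/
private def paProg (c e : ℕ) : Prog :=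
  .seq (.loop 0 (.seq (.ite 0 (.push 3 true) (.push 3 false)) (.seq (.push 5 true) (.pop 0))))
    (.seq (.loop 3 (.seq (.ite 3 (.push 0 true) (.push 0 false)) (.pop 3)))
      (.seq (.push 5 true) (.seq (.push 5 true) (.seq (paSqrs c)
        (.seq (.push 0 false) (.seq (paPush e) (.seq (.push 0 false)
          (.seq (.loop 5 (.seq (.push 0 true) (.pop 5))) (.ask 0)))))))))

theorem exists_pad (c e : ℕ) : ∃ (Q : Prog) (T : Polynomial ℕ), ∀ (A : Orc) (x : Word),
    Out A Q (T.eval x.length) x [] [] (A (cod ((x.length + 2) ^ 2 ^ c) e x)) := by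
  refine ⟨paProg c e, Polynomial.C 9 * Polynomial.X + Polynomial.C (20 + e)
    + Polynomial.C (20 * c) * ((Polynomial.X + Polynomial.C 2) ^ 2 ^ c + Polynomial.C 1) ^ 2
    + Polynomial.C 3 * (Polynomial.X + Polynomial.C 2) ^ 2 ^ c, fun A x => ?_⟩
  obtain ⟨s1, t1, a1, a2, a3, a4, a5, a6⟩ := pa_loop_a A x (ini x [] []) rfl
  have h3 : ini x [] [] 3 = [] := rfl
  have h5 : ini x [] [] 5 = [] := rfl
  have h6 : ini x [] [] 6 = [] := rfl
  have h7 : ini x [] [] 7 = [] := rfl
  have h8 : ini x [] [] 8 = [] := rfl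
  rw [h3, List.append_nil] at a4
  rw [h5, List.append_nil] at a5
  obtain ⟨s2, t2, b1, b2, b3, b4, b5⟩ := pa_loop_b A x.reverse s1 a4
  rw [List.length_reverse] at b1
  rw [a3, List.append_nil, List.reverse_reverse] at b4
  have c5 : s2 5 = List.replicate x.length true := by
    rw [b5 5 (by decide) (by decide), a5]
  have c6 : s2 6 = [] := by
    rw [b5 6 (by decide) (by decide), a6 6 (by decide) (by decide) (by decide), h6]
  have c7 : s2 7 = [] := by
    rw [b5 7 (by decide) (by decide), a6 7 (by decide) (by decide) (by decide), h7]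
  have c8 : s2 8 = [] := by
    rw [b5 8 (by decide) (by decide), a6 8 (by decide) (by decide) (by decide), h8]
  have r3 := Run.push (A := A) 5 true s2
  have r4 := Run.push (A := A) 5 true (Function.update s2 5 (true :: s2 5))
  rw [Function.update_idem, Function.update_self] at r4
  obtain ⟨t5, d1, r5⟩ := pa_sqrs A (Function.update s2 5 (true :: true :: s2 5)) (x.length + 2)
    (by omega) (by simp [c5, List.replicate_succ]) (by simp [c6]) (by simp [c7]) (by simp [c8]) c
  rw [Function.update_idem] at r5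
  have r6 := Run.push (A := A) 0 false
    (Function.update s2 5 (List.replicate ((x.length + 2) ^ 2 ^ c) true))
  have r7 := pa_push A (Function.update
    (Function.update s2 5 (List.replicate ((x.length + 2) ^ 2 ^ c) true)) 0
    (false :: Function.update s2 5 (List.replicate ((x.length + 2) ^ 2 ^ c) true) 0)) e
  rw [Function.update_idem, Function.update_self] at r7
  have r8 := Run.push (A := A) 0 false (Function.update
    (Function.update s2 5 (List.replicate ((x.length + 2) ^ 2 ^ c) true)) 0
    (List.replicate e true ++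
      false :: Function.update s2 5 (List.replicate ((x.length + 2) ^ 2 ^ c) true) 0))
  rw [Function.update_idem, Function.update_self] at r8
  obtain ⟨s9, r9, e9⟩ := pa_loop_c A ((x.length + 2) ^ 2 ^ c) (Function.update
    (Function.update s2 5 (List.replicate ((x.length + 2) ^ 2 ^ c) true)) 0
    (false :: (List.replicate e true ++
      false :: Function.update s2 5 (List.replicate ((x.length + 2) ^ 2 ^ c) true) 0))) (by simp)
  have e10 : s9 0 = cod ((x.length + 2) ^ 2 ^ c) e x := by
    rw [e9]
    simp [cod, b4]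
  have r10 := Run.ask (A := A) 0 s9
  refine ⟨_, _, _, ?_, Run.seq a2 (Run.seq b2 (Run.seq r3 (Run.seq r4 (Run.seq r5 (Run.seq r6
    (Run.seq r7 (Run.seq r8 (Run.seq r9 r10)))))))), ?_⟩
  · simp only [Polynomial.eval_add, Polynomial.eval_mul, Polynomial.eval_C, Polynomial.eval_X,
      Polynomial.eval_pow]
    omega
  · rw [Function.update_self, e10]
    rfl

end Pool.Agent.Lib.MP_2254b5_lc
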