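import Pool.Agent.Lib.MP_2254b5_lc.Sqr
import Pool.Agent.Lib.MP_2254b5_lc.Defs2

/-!
# MP_2254b5_lc / Pad2 (row P2, about 200 lines): asking a padded question with a password

STATEMENT: below, verbatim. (Compare `exists_pad` in Pad.lean, helper22.)

PROOF. The input is `x` on stack `0` and the password `a` on stack `1`. The program: (1), (2) as in `exists_pad`: stack `5 = 1^|x|`, stack `0 = x`; (3) `.push 5 true` twice; (4) `sqr`, `c` times: stack `5 = 1^N`, `N = (|x| + 2)^(2^c)`; (5) push `false`, `e` times `true` on stack `0`: stack `0 = 1^e 0 x`; (6) reverse `a` to stack `3`, then move it from stack `3` to the top of stack `0`: stack `0 = a 1^e 0 x`; (7) push `false`, then `.loop 5 (.seq (.push 0 true) (.pop 5))`, then push `true`: stack `0 = qcod N e x a`; (8) `.ask 0`.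
Time: as in `exists_pad` and in addition at most `12 * (N + 1)` for step (6), `|a| = N`.
-/

namespace Pool.Agent.Lib.MP_2254b5_lc

private theorem pb_loop_a (A : Orc) : ∀ (w : Word) (s : St), s 0 = w → ∃ (s' : St) (t : ℕ),
    t ≤ 5 * w.length + 1 ∧
    Run A (.loop 0 (.seq (.ite 0 (.push 3 true) (.push 3 false)) (.seq (.push 5 true) (.pop 0))))
      s s' t [] ∧
    s' 0 = [] ∧ s' 3 = w.reverse ++ s 3 ∧ s' 5 = List.replicate w.length true ++ s 5 ∧
    ∀ k, k ≠ 0 → k ≠ 3 → k ≠ 5 → s' k = s k := by
  intro w
  induction w with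
  | nil =>
    intro s hs
    refine ⟨s, 1, by simp, Run.loopF hs, hs, by simp, by simp, fun k _ _ _ => rfl⟩
  | cons b w ih =>
    intro s hs
    have r1 : Run A (.ite 0 (.push 3 true) (.push 3 false)) s
        (Function.update s 3 (b :: s 3)) (1 + 1) [] := by
      cases b with
      | true => exact Run.iteT (by rw [hs]; rfl) (Run.push 3 true s)
      | false => exact Run.iteF (by rw [hs]; simp) (Run.push 3 false s)
    have r2 := Run.seq r1 (Run.seq (Run.push (A := A) 5 true (Function.update s 3 (b :: s 3)))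
      (Run.pop (A := A) 0 _))
    obtain ⟨s', t, h1, h2, h3, h4, h5, h6⟩ := ih _ (by
      show Function.update (Function.update (Function.update s 3 (b :: s 3)) 5
        (true :: (Function.update s 3 (b :: s 3)) 5)) 0 ((Function.update
        (Function.update s 3 (b :: s 3)) 5 (true :: (Function.update s 3 (b :: s 3)) 5)) 0).tail 0 = w
      simp [hs])
    have r3 := Run.loopT (k := 0) (by rw [hs]; simp) r2 h2
    refine ⟨s', _, ?_, r3, h3, ?_, ?_, ?_⟩
    · simp only [List.length_cons]
      omega
    · rw [h4]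
      simp
    · rw [h5]
      simp [List.replicate_succ']
    · intro k k0 k3 k5
      rw [h6 k k0 k3 k5]
      simp [k0, k3, k5]

private theorem pb_mv (A : Orc) (i j : ℕ) (hij : i ≠ j) : ∀ (w : Word) (s : St), s i = w → ∃ (s' : St) (t : ℕ),
    t ≤ 4 * w.length + 1 ∧
    Run A (.loop i (.seq (.ite i (.push j true) (.push j false)) (.pop i))) s s' t [] ∧
    s' i = [] ∧ s' j = w.reverse ++ s j ∧ ∀ k, k ≠ j → k ≠ i → s' k = s k := by
  intro w
  induction w with
  | nil =>
    intro s hs
    exact ⟨s, 1, by simp, Run.loopF hs, hs, by simp, fun k _ _ => rfl⟩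
  | cons b w ih =>
    intro s hs
    have r1 : Run A (.ite i (.push j true) (.push j false)) s
        (Function.update s j (b :: s j)) (1 + 1) [] := by
      cases b with
      | true => exact Run.iteT (by rw [hs]; rfl) (Run.push j true s)
      | false => exact Run.iteF (by rw [hs]; simp) (Run.push j false s)
    have r2 := Run.seq r1 (Run.pop (A := A) i _)
    obtain ⟨s', t, h1, h2, h3, h4, h5⟩ := ih (Function.update (Function.update s j (b :: s j)) i
      (Function.update s j (b :: s j) i).tail) (by
        rw [Function.update_self, Function.update_of_ne hij, hs, List.tail_cons])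
    have r3 := Run.loopT (k := i) (by rw [hs]; simp) r2 h2
    refine ⟨s', _, ?_, r3, h3, ?_, ?_⟩
    · simp only [List.length_cons]
      omega
    · rw [h4, Function.update_of_ne hij.symm, Function.update_self]
      simp
    · intro k k0 k3
      rw [h5 k k0 k3, Function.update_of_ne k3, Function.update_of_ne k0]

/-- `sqr`, `c` times. -/
private def pbSqrs : ℕ → Prog
  | 0 => .skip
  | c + 1 => .seq (pbSqrs c) sqr

private theorem pb_sqrs (A : Orc) (s : St) (u : ℕ) (hu : 1 ≤ u)
    (h5 : s 5 = List.replicate u true) (h6 : s 6 = []) (h7 : s 7 = []) (h8 : s 8 = []) :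
    ∀ c : ℕ, ∃ t ≤ 20 * c * (u ^ 2 ^ c + 1) ^ 2 + 1,
      Run A (pbSqrs c) s (Function.update s 5 (List.replicate (u ^ 2 ^ c) true)) t [] := by
  intro c
  induction c with
  | zero =>
    refine ⟨1, by simp, ?_⟩
    have hs : Function.update s 5 (List.replicate (u ^ 2 ^ 0) true) = s := by
      rw [pow_zero, pow_one, ← h5, Function.update_eq_self]
    rw [hs]
    exact Run.skip s
  | succ c ih =>
    obtain ⟨t, ht, hr⟩ := ih
    obtain ⟨t', ht', hr'⟩ := run_sqr A
      (Function.update s 5 (List.replicate (u ^ 2 ^ c) true)) (u ^ 2 ^ c) (by simp)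
      (by simp [h6]) (by simp [h7]) (by simp [h8])
    rw [Function.update_idem, ← pow_mul, ← pow_succ] at hr'
    refine ⟨t + t', ?_, Run.seq hr hr'⟩
    have hm : u ^ 2 ^ c ≤ u ^ 2 ^ (c + 1) :=
      Nat.pow_le_pow_right hu (Nat.pow_le_pow_right (by norm_num) (Nat.le_succ c))
    have h1 : (u ^ 2 ^ c + 1) ^ 2 ≤ (u ^ 2 ^ (c + 1) + 1) ^ 2 :=
      Nat.pow_le_pow_left (Nat.add_le_add_right hm 1) 2
    have h2 : 20 * c * (u ^ 2 ^ c + 1) ^ 2 ≤ 20 * c * (u ^ 2 ^ (c + 1) + 1) ^ 2 :=
      Nat.mul_le_mul_left _ h1
    have h3 : 20 * (u ^ 2 ^ c + 1) ^ 2 ≤ 20 * (u ^ 2 ^ (c + 1) + 1) ^ 2 :=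
      Nat.mul_le_mul_left _ h1
    calc t + t' ≤ (20 * c * (u ^ 2 ^ (c + 1) + 1) ^ 2 + 1)
          + 20 * (u ^ 2 ^ (c + 1) + 1) ^ 2 := by omega
      _ = 20 * (c + 1) * (u ^ 2 ^ (c + 1) + 1) ^ 2 + 1 := by ring

/-- `push 0 true`, `e` times. -/
private def pbPush : ℕ → Prog
  | 0 => .skip
  | e + 1 => .seq (pbPush e) (.push 0 true)

private theorem pb_push (A : Orc) (s : St) : ∀ e : ℕ,
    Run A (pbPush e) s (Function.update s 0 (List.replicate e true ++ s 0)) (e + 1) [] := by
  intro e
  induction e with
  | zero =>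
    have hs : Function.update s 0 (List.replicate 0 true ++ s 0) = s := by simp
    rw [hs]
    exact Run.skip s
  | succ e ih =>
    have h := Run.seq ih (Run.push (A := A) 0 true _)
    rw [Function.update_idem, Function.update_self] at h
    have he : true :: (List.replicate e true ++ s 0) = List.replicate (e + 1) true ++ s 0 := by
      rw [List.replicate_succ, List.cons_append]
    rw [he] at h
    exact h

private theorem pb_loop_c (A : Orc) : ∀ (n : ℕ) (s : St), s 5 = List.replicate n true →
    ∃ s' : St, Run A (.loop 5 (.seq (.push 0 true) (.pop 5))) s s' (3 * n + 1) [] ∧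
      s' 0 = List.replicate n true ++ s 0 := by
  intro n
  induction n with
  | zero =>
    intro s hs
    exact ⟨s, Run.loopF (by simpa using hs), by simp⟩
  | succ n ih =>
    intro s hs
    have r1 := Run.seq (Run.push (A := A) 0 true s) (Run.pop (A := A) 5 _)
    obtain ⟨s', h1, h2⟩ := ih _ (by
      show Function.update (Function.update s 0 (true :: s 0)) 5
        (Function.update s 0 (true :: s 0) 5).tail 5 = List.replicate n true
      simp [hs, List.replicate_succ])
    have r2 := Run.loopT (k := 5) (by rw [hs]; simp [List.replicate_succ]) r1 h1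
    refine ⟨s', ?_, ?_⟩
    · have ht : 1 + 1 + (3 * n + 1) + 1 = 3 * (n + 1) + 1 := by ring
      rw [ht] at r2
      exact r2
    · rw [h2]
      simp [List.replicate_succ']

/-- The program. -/
private def pbProg (c e : ℕ) : Prog :=
  .seq (.loop 0 (.seq (.ite 0 (.push 3 true) (.push 3 false)) (.seq (.push 5 true) (.pop 0))))
    (.seq (.loop 3 (.seq (.ite 3 (.push 0 true) (.push 0 false)) (.pop 3)))
      (.seq (.push 5 true) (.seq (.push 5 true) (.seq (pbSqrs c)
        (.seq (.push 0 false) (.seq (pbPush e)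
          (.seq (.loop 1 (.seq (.ite 1 (.push 3 true) (.push 3 false)) (.pop 1)))
            (.seq (.loop 3 (.seq (.ite 3 (.push 0 true) (.push 0 false)) (.pop 3)))
              (.seq (.push 0 false)
                (.seq (.loop 5 (.seq (.push 0 true) (.pop 5))) (.seq (.push 0 true) (.ask 0))))))))))))

theorem exists_pad2 (c e : ℕ) : ∃ (Q : Prog) (T : Polynomial ℕ), ∀ (A : Orc) (x a : Word),
    a.length = (x.length + 2) ^ 2 ^ c →
      Out A Q (T.eval x.length) x a [] (A (qcod ((x.length + 2) ^ 2 ^ c) e x a)) := by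
  refine ⟨pbProg c e, Polynomial.C 9 * Polynomial.X + Polynomial.C (30 + e)
    + Polynomial.C (20 * c) * ((Polynomial.X + Polynomial.C 2) ^ 2 ^ c + Polynomial.C 1) ^ 2
    + Polynomial.C 11 * (Polynomial.X + Polynomial.C 2) ^ 2 ^ c, fun A x a ha => ?_⟩
  obtain ⟨s1, t1, a1, a2, a3, a4, a5, a6⟩ := pb_loop_a A x (ini x a []) rfl
  have h1 : ini x a [] 1 = a := rfl
  have h3 : ini x a [] 3 = [] := rfl
  have h5 : ini x a [] 5 = [] := rfl
  have h6 : ini x a [] 6 = [] := rfl
  have h7 : ini x a [] 7 = [] := rfl
  have h8 : ini x a [] 8 = [] := rfl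
  rw [h3, List.append_nil] at a4
  rw [h5, List.append_nil] at a5
  obtain ⟨s2, t2, b1, b2, b3, b4, b5⟩ := pb_mv A 3 0 (by decide) x.reverse s1 a4
  rw [List.length_reverse] at b1
  rw [a3, List.append_nil, List.reverse_reverse] at b4
  have c1 : s2 1 = a := by
    rw [b5 1 (by decide) (by decide), a6 1 (by decide) (by decide) (by decide), h1]
  have c5 : s2 5 = List.replicate x.length true := by
    rw [b5 5 (by decide) (by decide), a5]
  have c6 : s2 6 = [] := by
    rw [b5 6 (by decide) (by decide), a6 6 (by decide) (by decide) (by decide), h6]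
  have c7 : s2 7 = [] := by
    rw [b5 7 (by decide) (by decide), a6 7 (by decide) (by decide) (by decide), h7]
  have c8 : s2 8 = [] := by
    rw [b5 8 (by decide) (by decide), a6 8 (by decide) (by decide) (by decide), h8]
  have r3 := Run.push (A := A) 5 true s2
  have r4 := Run.push (A := A) 5 true (Function.update s2 5 (true :: s2 5))
  rw [Function.update_idem, Function.update_self] at r4
  obtain ⟨t5, d1, r5⟩ := pb_sqrs A (Function.update s2 5 (true :: true :: s2 5)) (x.length + 2)
    (by omega) (by simp [c5, List.replicate_succ]) (by simp [c6]) (by simp [c7]) (by simp [c8]) c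
  rw [Function.update_idem] at r5
  have r6 := Run.push (A := A) 0 false
    (Function.update s2 5 (List.replicate ((x.length + 2) ^ 2 ^ c) true))
  have r7 := pb_push A (Function.update
    (Function.update s2 5 (List.replicate ((x.length + 2) ^ 2 ^ c) true)) 0
    (false :: Function.update s2 5 (List.replicate ((x.length + 2) ^ 2 ^ c) true) 0)) e
  rw [Function.update_idem, Function.update_self] at r7
  obtain ⟨s8, t8, f1, f2, f3, f4, f5⟩ := pb_mv A 1 3 (by decide) a (Function.update
    (Function.update s2 5 (List.replicate ((x.length + 2) ^ 2 ^ c) true)) 0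
    (List.replicate e true ++
      false :: Function.update s2 5 (List.replicate ((x.length + 2) ^ 2 ^ c) true) 0)) (by simp [c1])
  have g3 : s8 3 = a.reverse := by
    rw [f4]
    simp [b3]
  obtain ⟨s9, t9, g1, g2, g4, g5, g6⟩ := pb_mv A 3 0 (by decide) a.reverse s8 g3
  rw [List.length_reverse] at g1
  rw [List.reverse_reverse, f5 0 (by decide) (by decide)] at g5
  have k0 : s9 0 = a ++ (List.replicate e true ++ false :: x) := by
    rw [g5]
    simp [b4]
  have k5 : s9 5 = List.replicate ((x.length + 2) ^ 2 ^ c) true := by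
    rw [g6 5 (by decide) (by decide), f5 5 (by decide) (by decide)]
    simp
  have r10 := Run.push (A := A) 0 false s9
  obtain ⟨s11, r11, e11⟩ := pb_loop_c A ((x.length + 2) ^ 2 ^ c)
    (Function.update s9 0 (false :: s9 0)) (by simp [k5])
  have r12 := Run.push (A := A) 0 true s11
  have e12 : Function.update s11 0 (true :: s11 0) 0 = qcod ((x.length + 2) ^ 2 ^ c) e x a := by
    rw [Function.update_self, e11, Function.update_self, k0]
    rfl
  have r13 := Run.ask (A := A) 0 (Function.update s11 0 (true :: s11 0))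
  refine ⟨_, _, _, ?_, Run.seq a2 (Run.seq b2 (Run.seq r3 (Run.seq r4 (Run.seq r5 (Run.seq r6
    (Run.seq r7 (Run.seq f2 (Run.seq g2 (Run.seq r10 (Run.seq r11 (Run.seq r12 r13))))))))))), ?_⟩
  · simp only [Polynomial.eval_add, Polynomial.eval_mul, Polynomial.eval_C, Polynomial.eval_X,
      Polynomial.eval_pow]
    rw [ha] at f1 g1
    omega
  · rw [Function.update_self, e12]
    rfl

end Pool.Agent.Lib.MP_2254b5_lc
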