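import Pool.Agent.Lib.MP_2254b5_lc.Constr
import Pool.Agent.Lib.MP_2254b5_lc.Det

/-!
# MP_2254b5_lc / Sep (row SE): the separation

PROOF. `A` from `exists_oracle`. Suppose `InAMt A (emp A) T m` with the program `Q`. From the hypothesis on `T` get `n₀`, from `exists_oracle` a number `n ≥ n₀`; `x = List.replicate n true`, `τ = (2^n - 1)/2`, so `T n ≤ τ`.
`acc A Q (T n) (m n) x = acc A Q τ (m n) x`: for `r, w` of length `m n` the program halts within `T n` steps with some `v`; so `Out A Q (T n) x r w true` iff `Out A Q τ x r w true` (`Out.mono`; conversely `Out.same`).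
First alternative: `x ∈ emp A` (all letters are `true`, no word of length `n` in `A`), and the first condition of the protocol contradicts `3 acc < 2 * 2^m`. Second alternative: `x ∉ emp A`, and the second condition contradicts `2^m < 3 acc`.
-/

namespace Pool.Agent.Lib.MP_2254b5_lc

private theorem acc_time {A : Orc} {Q : Prog} {T T' m : ℕ} {x : Word} (hT : T ≤ T')
    (hh : ∀ r w : Word, r.length = m → w.length = m → ∃ v, Out A Q T x r w v) :
    acc A Q T' m x = acc A Q T m x := by
  unfold acc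
  congr 1
  ext r
  constructor
  · rintro ⟨hr, w, hw, ho⟩
    obtain ⟨v, hv⟩ := hh r w hr hw
    exact ⟨hr, w, hw, Out.same ho hv⟩
  · rintro ⟨hr, w, hw, ho⟩
    exact ⟨hr, w, hw, Out.mono ho hT⟩

theorem separation (M : Set (ℕ → ℕ)) (hM : M.Countable) :
    ∃ A : Orc, ∀ T m : ℕ → ℕ, m ∈ M → (∀ᶠ n in Filter.atTop, 2 * T n < 2 ^ n) →
      ¬ InAMt A (emp A) T m := by
  obtain ⟨A, hA⟩ := exists_oracle M hM
  refine ⟨A, ?_⟩
  rintro T m hm hT ⟨Q, hQ⟩
  obtain ⟨n₀, hn₀⟩ := Filter.eventually_atTop.1 hT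
  obtain ⟨n, hn, hcase⟩ := hA Q m hm n₀
  have hlen : (List.replicate n true).length = n := List.length_replicate
  obtain ⟨h1, h2, h3⟩ := hQ (List.replicate n true)
  rw [hlen] at h1 h2 h3
  have hTn : T n ≤ (2 ^ n - 1) / 2 := by
    have := hn₀ n hn
    omega
  have hacc := acc_time (m := m n) hTn h1
  rw [hacc] at hcase
  rcases hcase with ⟨hno, hlt⟩ | ⟨⟨w, hw, hAw⟩, hlt⟩
  · have hx : List.replicate n true ∈ emp A := by
      refine ⟨fun b hb => List.eq_of_mem_replicate hb, fun w hw => hno w ?_⟩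
      rw [hw, hlen]
    have := h2 hx
    omega
  · have hx : List.replicate n true ∉ emp A := by
      rintro ⟨-, h⟩
      have := h w (by rw [hw, hlen])
      rw [this] at hAw
      exact Bool.false_ne_true hAw
    have := h3 hx
    omega

end Pool.Agent.Lib.MP_2254b5_lc
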