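import Pool.Agent.Lib.MP_2254b5_lc.Constr3
import Pool.Agent.Lib.MP_2254b5_lc.NPpoly
import Pool.Agent.Lib.MP_2254b5_lc.Det

/-!
# MP_2254b5_lc / Sep3: the separation, with `NP ⊆ P/poly`, from Arthur-Merlin and multi-prover protocols
-/

namespace Pool.Agent.Lib.MP_2254b5_lc

private theorem acc_time2 {A : Orc} {Q : Prog} {T T' m : ℕ} {x : Word} (hT : T ≤ T')
    (hh : ∀ r w : Word, r.length = m → w.length = m → ∃ v, Out A Q T x r w v) :
    acc A Q T' m x = acc A Q T m x := by
  unfold acc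
  congr 1
  ext r
  constructor
  · rintro ⟨hr, w, hw, ho⟩
    obtain ⟨v, hv⟩ := hh r w hr hw
    exact ⟨hr, w, hw, Out.same ho hv⟩
  · rintro ⟨hr, w, hw, ho⟩
    exact ⟨hr, w, hw, Out.mono ho hT⟩

theorem separation3 (M : Set (ℕ → ℕ)) (hM : M.Countable) :
    ∃ A : Orc, (∀ L : Set Word, InNP A L → InPpoly A L) ∧
      ∀ T m : ℕ → ℕ, m ∈ M → (∀ᶠ n in Filter.atTop, 2 * T n < 2 ^ n) →
        ¬ InAMt A (emp2 A) T m ∧ ¬ InMIPt A (emp2 A) T m := by
  obtain ⟨E, hE⟩ := enum_exists
  obtain ⟨A, p, hp, hA⟩ := exists_oracle3 E M hM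
  refine ⟨A, fun L hL => ppoly_of_right E hE A p hp L hL, fun T m hm hT => ⟨?_, ?_⟩⟩
  · rintro ⟨Q, hQ⟩
    obtain ⟨n₀, hn₀⟩ := Filter.eventually_atTop.1 hT
    obtain ⟨n, hn, hcase⟩ := hA Q m true hm n₀
    have hlen : (List.replicate n true).length = n := List.length_replicate
    obtain ⟨h1, h2, h3⟩ := hQ (List.replicate n true)
    rw [hlen] at h1 h2 h3
    have hTn : T n ≤ (2 ^ n - 1) / 2 := by
      have := hn₀ n hn
      omega
    have hacc := acc_time2 (m := m n) hTn h1
    rcases hcase with ⟨hno, hlt⟩ | ⟨⟨w, hw, hAw⟩, C, hC, hlt⟩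
    · have hx : List.replicate n true ∈ emp2 A := by
        refine ⟨fun b hb => List.eq_of_mem_replicate hb, fun w hw => hno w ?_⟩
        rw [hw, hlen]
      have := h2 hx
      have h4 := hlt A rfl
      rw [hacc] at h4
      omega
    · have hx : List.replicate n true ∉ emp2 A := by
        rintro ⟨-, h⟩
        have := h w (by rw [hw, hlen])
        rw [this] at hAw
        exact Bool.false_ne_true hAw
      have := h3 hx
      have h4 : C = A := hC
      rw [h4, hacc] at hlt
      omega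
  · rintro ⟨Q, hQ⟩
    obtain ⟨n₀, hn₀⟩ := Filter.eventually_atTop.1 hT
    obtain ⟨n, hn, hcase⟩ := hA Q m false hm n₀
    have hlen : (List.replicate n true).length = n := List.length_replicate
    obtain ⟨h1, h2, h3⟩ := hQ (List.replicate n true)
    rw [hlen] at h1 h2 h3
    have hTn : T n ≤ (2 ^ n - 1) / 2 := by
      have := hn₀ n hn
      omega
    have hacc := fun φ => acc_time2 (m := m n) hTn (h1 φ)
    rcases hcase with ⟨hno, hlt⟩ | ⟨⟨w, hw, hAw⟩, C, hC, hlt⟩
    · have hx : List.replicate n true ∈ emp2 A := by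
        refine ⟨fun b hb => List.eq_of_mem_replicate hb, fun w hw => hno w ?_⟩
        rw [hw, hlen]
      obtain ⟨φ, hφ⟩ := h2 hx
      have h4 := hlt (join A φ) ⟨φ, rfl⟩
      rw [hacc] at h4
      omega
    · have hx : List.replicate n true ∉ emp2 A := by
        rintro ⟨-, h⟩
        have := h w (by rw [hw, hlen])
        rw [this] at hAw
        exact Bool.false_ne_true hAw
      obtain ⟨φ, rfl⟩ := hC
      have := h3 hx φ
      rw [hacc] at hlt
      omega

end Pool.Agent.Lib.MP_2254b5_lc
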