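import Pool.Agent.Lib.MP_2254b5_lc.Defs

/-!
# MP_2254b5_lc / Sqr: a program that squares a unary number

The states are described by the numbers of letters on the stacks `5, 6, 7, 8` (`stt`).  First loop: from stack `5 = 1^u` to stacks
`6 = 7 = 1^u` (`4` steps per letter, `1` at the end).  The inner part of the second loop adds `u` letters to stack `5` and leaves
`7 = 1^u`, `8 = []`, in `7 u + 3` steps.  Last loop: empties stack `7`.  Total `7 u^2 + 10 u + 3` steps.
-/

set_option autoImplicit false

namespace Pool.Agent.Lib.MP_2254b5_lc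

/-- Replace `1^u` on stack `5` by `1^(u^2)` (auxiliary stacks `6, 7, 8`). -/
def sqr : Prog :=
  .seq (.loop 5 (.seq (.push 6 true) (.seq (.push 7 true) (.pop 5))))
    (.seq (.loop 6 (.seq (.pop 6)
      (.seq (.loop 7 (.seq (.push 5 true) (.seq (.push 8 true) (.pop 7))))
        (.loop 8 (.seq (.push 7 true) (.pop 8))))))
      (.loop 7 (.pop 7)))

/-- the state with `a, b, c, d` letters on the stacks `5, 6, 7, 8` -/
private def stt (s : St) (a b c d : ℕ) : St := fun k =>
  if k = 5 then List.replicate a true else if k = 6 then List.replicate b true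
  else if k = 7 then List.replicate c true else if k = 8 then List.replicate d true else s k

private theorem cast_run {A : Orc} {P : Prog} {s s' s'' : St} {t t' : ℕ} {q : List Word} (h : Run A P s s' t q)
    (e1 : s' = s'') (e2 : t = t') : Run A P s s'' t' q := by
  subst e1 e2
  exact h

private theorem push5 (A : Orc) (s : St) (a b c d : ℕ) : Run A (.push 5 true) (stt s a b c d) (stt s (a + 1) b c d) 1 [] := by
  refine cast_run (Run.push 5 true _) ?_ rfl
  funext k
  by_cases h5 : k = 5
  · subst h5
    simp [stt, List.replicate_succ]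
  · simp [stt, h5]

private theorem push6 (A : Orc) (s : St) (a b c d : ℕ) : Run A (.push 6 true) (stt s a b c d) (stt s a (b + 1) c d) 1 [] := by
  refine cast_run (Run.push 6 true _) ?_ rfl
  funext k
  by_cases h5 : k = 6
  · subst h5
    simp [stt, List.replicate_succ]
  · simp [stt, h5]

private theorem push7 (A : Orc) (s : St) (a b c d : ℕ) : Run A (.push 7 true) (stt s a b c d) (stt s a b (c + 1) d) 1 [] := by
  refine cast_run (Run.push 7 true _) ?_ rfl
  funext k
  by_cases h5 : k = 7
  · subst h5
    simp [stt, List.replicate_succ]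
  · simp [stt, h5]

private theorem push8 (A : Orc) (s : St) (a b c d : ℕ) : Run A (.push 8 true) (stt s a b c d) (stt s a b c (d + 1)) 1 [] := by
  refine cast_run (Run.push 8 true _) ?_ rfl
  funext k
  by_cases h5 : k = 8
  · subst h5
    simp [stt, List.replicate_succ]
  · simp [stt, h5]

private theorem pop5 (A : Orc) (s : St) (a b c d : ℕ) : Run A (.pop 5) (stt s (a + 1) b c d) (stt s a b c d) 1 [] := by
  refine cast_run (Run.pop 5 _) ?_ rfl
  funext k
  by_cases h5 : k = 5
  · subst h5
    simp [stt, List.replicate_succ]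
  · simp [stt, h5]

private theorem pop6 (A : Orc) (s : St) (a b c d : ℕ) : Run A (.pop 6) (stt s a (b + 1) c d) (stt s a b c d) 1 [] := by
  refine cast_run (Run.pop 6 _) ?_ rfl
  funext k
  by_cases h5 : k = 6
  · subst h5
    simp [stt, List.replicate_succ]
  · simp [stt, h5]

private theorem pop7 (A : Orc) (s : St) (a b c d : ℕ) : Run A (.pop 7) (stt s a b (c + 1) d) (stt s a b c d) 1 [] := by
  refine cast_run (Run.pop 7 _) ?_ rfl
  funext k
  by_cases h5 : k = 7
  · subst h5
    simp [stt, List.replicate_succ]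
  · simp [stt, h5]

private theorem pop8 (A : Orc) (s : St) (a b c d : ℕ) : Run A (.pop 8) (stt s a b c (d + 1)) (stt s a b c d) 1 [] := by
  refine cast_run (Run.pop 8 _) ?_ rfl
  funext k
  by_cases h5 : k = 8
  · subst h5
    simp [stt, List.replicate_succ]
  · simp [stt, h5]

private theorem loop5 (A : Orc) (s : St) (a b c d : ℕ) :
    Run A (.loop 5 (.seq (.push 6 true) (.seq (.push 7 true) (.pop 5)))) (stt s a b c d) (stt s 0 (b + a) (c + a) d)
      (4 * a + 1) [] := by
  induction a generalizing b c with
  | zero => exact cast_run (Run.loopF rfl) rfl rfl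
  | succ a ih =>
    have h1 := Run.seq (push6 A s (a + 1) b c d) (Run.seq (push7 A s (a + 1) (b + 1) c d) (pop5 A s a (b + 1) (c + 1) d))
    refine cast_run (Run.loopT (by simp [stt]) h1 (ih (b + 1) (c + 1))) ?_ (by ring)
    rw [show b + 1 + a = b + (a + 1) by ring, show c + 1 + a = c + (a + 1) by ring]

private theorem loop7 (A : Orc) (s : St) (a b c d : ℕ) :
    Run A (.loop 7 (.seq (.push 5 true) (.seq (.push 8 true) (.pop 7)))) (stt s a b c d) (stt s (a + c) b 0 (d + c))
      (4 * c + 1) [] := by
  induction c generalizing a d with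
  | zero => exact cast_run (Run.loopF rfl) rfl rfl
  | succ c ih =>
    have h1 := Run.seq (push5 A s a b (c + 1) d) (Run.seq (push8 A s (a + 1) b (c + 1) d) (pop7 A s (a + 1) b c (d + 1)))
    refine cast_run (Run.loopT (by simp [stt]) h1 (ih (a + 1) (d + 1))) ?_ (by ring)
    rw [show a + 1 + c = a + (c + 1) by ring, show d + 1 + c = d + (c + 1) by ring]

private theorem loop8 (A : Orc) (s : St) (a b c d : ℕ) :
    Run A (.loop 8 (.seq (.push 7 true) (.pop 8))) (stt s a b c d) (stt s a b (c + d) 0) (3 * d + 1) [] := by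
  induction d generalizing c with
  | zero => exact cast_run (Run.loopF rfl) rfl rfl
  | succ d ih =>
    have h1 := Run.seq (push7 A s a b c (d + 1)) (pop8 A s a b (c + 1) d)
    refine cast_run (Run.loopT (by simp [stt]) h1 (ih (c + 1))) ?_ (by ring)
    rw [show c + 1 + d = c + (d + 1) by ring]

private theorem loop6 (A : Orc) (s : St) (a b u : ℕ) :
    Run A (.loop 6 (.seq (.pop 6)
      (.seq (.loop 7 (.seq (.push 5 true) (.seq (.push 8 true) (.pop 7))))
        (.loop 8 (.seq (.push 7 true) (.pop 8)))))) (stt s a b u 0) (stt s (a + b * u) 0 u 0) (b * (7 * u + 4) + 1) [] := by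
  induction b generalizing a with
  | zero =>
    refine cast_run (Run.loopF rfl) ?_ (by ring)
    rw [zero_mul, add_zero]
  | succ b ih =>
    have h2 := loop7 A s a b u 0
    have h3 := loop8 A s (a + u) b 0 (0 + u)
    have h1 := Run.seq (pop6 A s a b u 0) (Run.seq h2 h3)
    rw [show (0 : ℕ) + (0 + u) = u by ring] at h1
    refine cast_run (Run.loopT (by simp [stt]) h1 (ih (a + u))) ?_ (by ring)
    rw [show a + u + b * u = a + (b + 1) * u by ring]

private theorem loop7' (A : Orc) (s : St) (a b c d : ℕ) :
    Run A (.loop 7 (.pop 7)) (stt s a b c d) (stt s a b 0 d) (2 * c + 1) [] := by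
  induction c with
  | zero => exact cast_run (Run.loopF rfl) rfl rfl
  | succ c ih => exact cast_run (Run.loopT (by simp [stt]) (pop7 A s a b c d) ih) rfl (by ring)

theorem run_sqr (A : Orc) (s : St) (u : ℕ) (h5 : s 5 = List.replicate u true) (h6 : s 6 = [])
    (h7 : s 7 = []) (h8 : s 8 = []) :
    ∃ t ≤ 20 * (u + 1) ^ 2,
      Run A sqr s (Function.update s 5 (List.replicate (u ^ 2) true)) t [] := by
  have e1 : s = stt s u 0 0 0 := by
    funext k
    by_cases a5 : k = 5
    · subst a5
      exact h5
    by_cases a6 : k = 6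
    · subst a6
      exact h6
    by_cases a7 : k = 7
    · subst a7
      exact h7
    by_cases a8 : k = 8
    · subst a8
      exact h8
    unfold stt
    rw [if_neg a5, if_neg a6, if_neg a7, if_neg a8]
  have e2 : Function.update s 5 (List.replicate (u ^ 2) true) = stt s (u ^ 2) 0 0 0 := by
    funext k
    by_cases hk : k = 5
    · subst hk
      simp [stt]
    · rw [Function.update_of_ne hk, e1]
      unfold stt
      rw [if_neg hk, if_neg hk]
      by_cases a6 : k = 6
      · rw [if_pos a6, if_pos a6]
      by_cases a7 : k = 7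
      · rw [if_neg a6, if_neg a6, if_pos a7, if_pos a7]
      by_cases a8 : k = 8
      · rw [if_neg a6, if_neg a6, if_neg a7, if_neg a7, if_pos a8, if_pos a8]
      rw [if_neg a6, if_neg a6, if_neg a7, if_neg a7, if_neg a8, if_neg a8]
  have h1 := Run.seq (loop5 A s u 0 0 0) (Run.seq (loop6 A s 0 (0 + u) (0 + u)) (loop7' A s (0 + (0 + u) * (0 + u)) 0 (0 + u) 0))
  refine ⟨7 * u ^ 2 + 10 * u + 3, by nlinarith, ?_⟩
  rw [e2]
  have h2 : Run A sqr (stt s u 0 0 0) (stt s (u ^ 2) 0 0 0) (7 * u ^ 2 + 10 * u + 3) [] := by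
    refine cast_run h1 ?_ (by ring)
    rw [show 0 + (0 + u) * (0 + u) = u ^ 2 by ring]
  rwa [← e1] at h2

end Pool.Agent.Lib.MP_2254b5_lc
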