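import Pool.Agent.Lib.MP_2254b5_lc.StepG
import Pool.Agent.Lib.MP_2254b5_lc.Over

/-!
# MP_2254b5_lc / Stage (row SA, about 130 lines): one stage of the construction

STATEMENT: below, verbatim.

PROOF. `T = (2^b - 1)/2` (`2 T < 2^b`), `x = 1^b`. If `3 * acc A Q T m x < 2 * 2^m` take `A' = A`, `p' = p` (`hb` gives the rest). Otherwise choose for every `v` an oracle `W v` by `exists_over E A v`, and apply `step_gen` with `κ = kap b`: if `v.length = b` and `kap b w ≠ v` then `w ≠ false :: v` and `w ≠ qcod N e x (pw v N)` for `b ≤ N` (`kap_qcod`), so `W v w = A w`. Let `v` be the word obtained, `A' = W v`, `p' N = if N < b then p N else pw v N`.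
The exceptional words `false :: v` and `qcod N e x (pw v N)` with `N ≥ b` have length `> b` (the latter `≥ 2 N + 3`), so `A' w = A w` for `w.length ≤ b`. For `b < w.length` the word `false :: w` is none of them (`w ≠ v`; `qcod` starts with `true`), so `A' (false :: w) = A (false :: w) = false`.
`Right A' E N (p' N)`: for `N ≥ b` from `exists_over`. For `N < b`: the word `qcod N e x (p N)` is not exceptional (`qcod_inj`: the level `N` is `< b`), so `A'` and `A` give the same answer; and for `x.length + m + T' ≤ N` the runs ask only words of length `≤ N < b` where `A'` and `A` agree (`Out.agree` with `x.length + m` in place of `M`, both directions).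
Second alternative: `A' (false :: v) = true`, `v.length = b`, and `2^m < 3 * acc A' ...` from `step_gen`.
-/

namespace Pool.Agent.Lib.MP_2254b5_lc

theorem stage (E : ℕ → Prog × (ℕ → ℕ) × (ℕ → ℕ)) (A : Orc) (p : ℕ → Word) (b : ℕ)
    (hp : ∀ N, Right A E N (p N)) (hb : ∀ w : Word, b ≤ w.length → A (false :: w) = false)
    (Q : Prog) (m : ℕ) :
    ∃ (A' : Orc) (p' : ℕ → Word), (∀ N, Right A' E N (p' N)) ∧ (∀ N < b, p' N = p N) ∧
      (∀ w : Word, w.length ≤ b → A' w = A w) ∧
      (∀ w : Word, b < w.length → A' (false :: w) = false) ∧
      (((∀ w : Word, w.length = b → A' (false :: w) = false) ∧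
          3 * acc A' Q ((2 ^ b - 1) / 2) m (List.replicate b true) < 2 * 2 ^ m) ∨
        ((∃ w : Word, w.length = b ∧ A' (false :: w) = true) ∧
          2 ^ m < 3 * acc A' Q ((2 ^ b - 1) / 2) m (List.replicate b true))) := by
  by_cases hc : 2 * 2 ^ m ≤ 3 * acc A Q ((2 ^ b - 1) / 2) m (List.replicate b true)
  · choose W h1 h2 h3 using exists_over E A
    obtain ⟨v, hv, hacc⟩ := step_gen A W (kap b) Q ((2 ^ b - 1) / 2) m b (List.replicate b true)
      (fun v w hv hk => h2 v w (fun h => hk (by rw [h]; rfl))
        (fun N e x hN h => hk (by rw [h, ← hv]; exact kap_qcod v N e x hN)))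
      (by have := Nat.two_pow_pos b; omega) hc
    have hne : ∀ w : Word, w.length ≤ b → W v w = A w := by
      intro w hw
      refine h2 v w ?_ ?_
      · rintro rfl
        rw [List.length_cons] at hw
        omega
      · rintro N e x hN rfl
        have hl : (qcod N e x (pw v N)).length = 1 + N + (1 + (pw v N).length + (e + (1 + x.length))) := by
          simp only [qcod, List.length_cons, List.length_append, List.length_replicate]
          omega
        omega
    refine ⟨W v, fun N => if N < b then p N else pw v N, fun N => ?_, fun N hN => if_pos hN, hne, fun w hw => ?_,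
      Or.inr ⟨⟨v, hv, h1 v⟩, hacc⟩⟩
    · by_cases hN : N < b
      · simp only [if_pos hN]
        obtain ⟨hl, hR⟩ := hp N
        refine ⟨hl, fun e x hx => ?_⟩
        have hq : W v (qcod N e x (p N)) = A (qcod N e x (p N)) := by
          refine h2 v _ ?_ ?_
          · intro h
            exact absurd (List.cons.inj h).1 (by simp)
          · intro N' e' x' hN' h
            have := (qcod_inj hl (pw_length hN') h).1
            omega
        rw [hq, hR e x hx]
        constructor
        · rintro ⟨y, hy, ho⟩
          exact ⟨y, hy, ho.agree (M := x.length + (E e).2.2 x.length) (by omega) (by omega) (by simp)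
            fun u hu => (hne u (by omega)).symm⟩
        · rintro ⟨y, hy, ho⟩
          exact ⟨y, hy, ho.agree (M := x.length + (E e).2.2 x.length) (by omega) (by omega) (by simp)
            fun u hu => hne u (by omega)⟩
      · simp only [if_neg hN]
        exact h3 v N (by omega)
    · rw [h2 v (false :: w) ?_ ?_]
      · exact hb w hw.le
      · intro h
        have := (List.cons.inj h).2
        rw [this, hv] at hw
        omega
      · intro N e x hN h
        exact absurd (List.cons.inj h).1 (by simp)
  · exact ⟨A, p, hp, fun _ _ => rfl, fun _ _ => rfl, fun w hw => hb w hw.le,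
      Or.inl ⟨fun w hw => hb w hw.ge, by omega⟩⟩

end Pool.Agent.Lib.MP_2254b5_lc
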