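import Pool.Agent.Lib.MP_2254b5_lc.StepG
import Pool.Agent.Lib.MP_2254b5_lc.Over
import Pool.Agent.Lib.MP_2254b5_lc.Defs3

/-!
# MP_2254b5_lc / Stage3: one stage of the construction, for both kinds of protocols
-/

namespace Pool.Agent.Lib.MP_2254b5_lc

/-- The word hit by a question to the joined oracle. -/
private def kap3 (n : ℕ) : Word → Word
  | [] => []
  | false :: w => kap n w
  | true :: _ => []

private theorem step3 (A : Orc) (W : Word → Orc) (Q : Prog) (T m n : ℕ) (x : Word)
    (hW : ∀ v w : Word, v.length = n → kap n w ≠ v → W v w = A w) (hT : 2 * T < 2 ^ n) (k : Bool)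
    (C : Orc) (hC : C ∈ prov A k) (hc : 2 * 2 ^ m ≤ 3 * acc C Q T m x) :
    ∃ v : Word, v.length = n ∧ ∃ C' ∈ prov (W v) k, 2 ^ m < 3 * acc C' Q T m x := by
  cases k with
  | true =>
    have h1 : C = A := hC
    rw [h1] at hc
    obtain ⟨v, hv, h⟩ := step_gen A W (kap n) Q T m n x hW hT hc
    exact ⟨v, hv, W v, rfl, h⟩
  | false =>
    obtain ⟨φ, rfl⟩ := hC
    obtain ⟨v, hv, h⟩ := step_gen (join A φ) (fun v => join (W v) φ) (kap3 n) Q T m n x
      (fun v w hv hk => by
        match w, hk with
        | [], _ => rfl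
        | false :: u, hk => exact hW v u hv hk
        | true :: u, _ => rfl) hT hc
    exact ⟨v, hv, _, ⟨φ, rfl⟩, h⟩

theorem stage3 (E : ℕ → Prog × (ℕ → ℕ) × (ℕ → ℕ)) (A : Orc) (p : ℕ → Word) (b : ℕ)
    (hp : ∀ N, Right A E N (p N)) (hb : ∀ w : Word, b ≤ w.length → A (false :: w) = false)
    (Q : Prog) (m : ℕ) (k : Bool) :
    ∃ (A' : Orc) (p' : ℕ → Word), (∀ N, Right A' E N (p' N)) ∧ (∀ N < b, p' N = p N) ∧
      (∀ w : Word, w.length ≤ b → A' w = A w) ∧
      (∀ w : Word, b < w.length → A' (false :: w) = false) ∧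
      (((∀ w : Word, w.length = b → A' (false :: w) = false) ∧
          ∀ C ∈ prov A' k, 3 * acc C Q ((2 ^ b - 1) / 2) m (List.replicate b true) < 2 * 2 ^ m) ∨
        ((∃ w : Word, w.length = b ∧ A' (false :: w) = true) ∧
          ∃ C ∈ prov A' k, 2 ^ m < 3 * acc C Q ((2 ^ b - 1) / 2) m (List.replicate b true))) := by
  by_cases hc : ∃ C ∈ prov A k, 2 * 2 ^ m ≤ 3 * acc C Q ((2 ^ b - 1) / 2) m (List.replicate b true)
  · obtain ⟨C, hC, hc⟩ := hc
    choose W h1 h2 h3 using exists_over E A
    obtain ⟨v, hv, hacc⟩ := step3 A W Q ((2 ^ b - 1) / 2) m b (List.replicate b true)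
      (fun v w hv hk => h2 v w (fun h => hk (by rw [h]; rfl))
        (fun N e x hN h => hk (by rw [h, ← hv]; exact kap_qcod v N e x hN)))
      (by have := Nat.two_pow_pos b; omega) k C hC hc
    have hne : ∀ w : Word, w.length ≤ b → W v w = A w := by
      intro w hw
      refine h2 v w ?_ ?_
      · rintro rfl
        rw [List.length_cons] at hw
        omega
      · rintro N e x hN rfl
        have hl : (qcod N e x (pw v N)).length = 1 + N + (1 + (pw v N).length + (e + (1 + x.length))) := by
          simp only [qcod, List.length_cons, List.length_append, List.length_replicate]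
          omega
        omega
    refine ⟨W v, fun N => if N < b then p N else pw v N, fun N => ?_, fun N hN => if_pos hN, hne, fun w hw => ?_,
      Or.inr ⟨⟨v, hv, h1 v⟩, hacc⟩⟩
    · by_cases hN : N < b
      · simp only [if_pos hN]
        obtain ⟨hl, hR⟩ := hp N
        refine ⟨hl, fun e x hx => ?_⟩
        have hq : W v (qcod N e x (p N)) = A (qcod N e x (p N)) := by
          refine h2 v _ ?_ ?_
          · intro h
            exact absurd (List.cons.inj h).1 (by simp)
          · intro N' e' x' hN' h
            have := (qcod_inj hl (pw_length hN') h).1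
            omega
        rw [hq, hR e x hx]
        constructor
        · rintro ⟨y, hy, ho⟩
          exact ⟨y, hy, ho.agree (M := x.length + (E e).2.2 x.length) (by omega) (by omega) (by simp)
            fun u hu => (hne u (by omega)).symm⟩
        · rintro ⟨y, hy, ho⟩
          exact ⟨y, hy, ho.agree (M := x.length + (E e).2.2 x.length) (by omega) (by omega) (by simp)
            fun u hu => hne u (by omega)⟩
      · simp only [if_neg hN]
        exact h3 v N (by omega)
    · rw [h2 v (false :: w) ?_ ?_]
      · exact hb w hw.le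
      · intro h
        have := (List.cons.inj h).2
        rw [this, hv] at hw
        omega
      · intro N e x hN h
        exact absurd (List.cons.inj h).1 (by simp)
  · refine ⟨A, p, hp, fun _ _ => rfl, fun _ _ => rfl, fun w hw => hb w hw.le,
      Or.inl ⟨fun w hw => hb w hw.ge, fun C hC => ?_⟩⟩
    by_contra hcon
    exact hc ⟨C, hC, not_lt.1 hcon⟩

end Pool.Agent.Lib.MP_2254b5_lc
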