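import Pool.Agent.Lib.MP_2254b5_lc.Agree

/-!
# MP_2254b5_lc / Step (row ST, about 120 lines): a word that is asked on few coin words

STATEMENT: below, verbatim.

PROOF. Let `G` be the set of the words `r` of length `m` counted by `acc A Q T m x` (finite: `List.finite_length_eq`), so `2 * 2^m ≤ 3 |G|`. For `r` in `G` choose `w` and, by `Out.queries`, a list `q r` of at most `T` words such that the run on `x, r, w` accepts with every oracle that agrees with `A` on `q r`.
Double counting over the `2^n` words `u` of length `n`: `∑_u #{r ∈ G | u ∈ q r} ≤ T |G|`, so some `u` has `2^n #{r ∈ G | u ∈ q r} ≤ T |G|`. For the other `r ∈ G` the oracle `Function.update A u true` agrees with `A` on `q r`, so these `r` are counted by `acc (Function.update A u true) Q T m x =: a'`. So `a' ≥ |G| - #{r ∈ G | u ∈ q r}` and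
`2^n * 3 a' ≥ 3 |G| (2^n - T)`, and `2 (2^n - T) > 2^n`, `|G| > 0`, hence `2 * 2^n * 3 a' > 3 |G| 2^n ≥ 2 * 2^m * 2^n`, so `3 a' > 2^m`.
(It may be convenient to turn words of length `n` into `Fin n → Bool` or `List.Vector Bool n` for the number `2^n`: `card_vector`.)
-/

namespace Pool.Agent.Lib.MP_2254b5_lc

theorem step (A : Orc) (Q : Prog) (T m n : ℕ) (x : Word) (hT : 2 * T < 2 ^ n)
    (hc : 2 * 2 ^ m ≤ 3 * acc A Q T m x) :
    ∃ u : Word, u.length = n ∧ 2 ^ m < 3 * acc (Function.update A u true) Q T m x := by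
  classical
  have hfin : ∀ A' : Orc, {r : Word | r.length = m ∧ ∃ w : Word, w.length = m ∧
      Out A' Q T x r w true}.Finite := fun A' =>
    (List.finite_length_eq Bool m).subset fun r hr => hr.1
  have hcard : acc A Q T m x = (hfin A).toFinset.card := Set.ncard_eq_toFinset_card _ (hfin A)
  set G := (hfin A).toFinset with hG
  have hGmem : ∀ r, r ∈ G ↔ r.length = m ∧ ∃ w : Word, w.length = m ∧ Out A Q T x r w true := by
    intro r
    rw [hG, Set.Finite.mem_toFinset]
    rfl
  have hq : ∀ r : Word, ∃ q : List Word, r ∈ G → q.length ≤ T ∧ ∀ A' : Orc, (∀ w ∈ q, A w = A' w) →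
      ∃ w : Word, w.length = m ∧ Out A' Q T x r w true := by
    intro r
    by_cases hr : r ∈ G
    · obtain ⟨_, w, hw, ho⟩ := (hGmem r).1 hr
      obtain ⟨q, hq1, hq2⟩ := ho.queries
      exact ⟨q, fun _ => ⟨hq1, fun A' hA => ⟨w, hw, hq2 A' hA⟩⟩⟩
    · exact ⟨[], fun h => absurd h hr⟩
  choose q hq using hq
  obtain ⟨U, hU⟩ : ∃ U : Finset Word, (∀ u ∈ U, u.length = n) ∧ U.card = 2 ^ n := by
    refine ⟨(Finset.univ : Finset (List.Vector Bool n)).map ⟨List.Vector.toList, List.Vector.toList_injective⟩,
      fun u hu => ?_, ?_⟩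
    · obtain ⟨v, _, rfl⟩ := Finset.mem_map.1 hu
      exact v.toList_length
    · rw [Finset.card_map, Finset.card_univ, card_vector, Fintype.card_bool]
  have hsum : ∑ u ∈ U, (G.filter fun r => u ∈ q r).card ≤ T * G.card := by
    have h1 : ∑ u ∈ U, (G.filter fun r => u ∈ q r).card =
        ∑ r ∈ G, (U.filter fun u => u ∈ q r).card := by
      simp only [Finset.card_filter]
      exact Finset.sum_comm
    rw [h1]
    calc ∑ r ∈ G, (U.filter fun u => u ∈ q r).card ≤ ∑ r ∈ G, T := by
          refine Finset.sum_le_sum fun r hr => ?_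
          calc (U.filter fun u => u ∈ q r).card ≤ (q r).toFinset.card := by
                refine Finset.card_le_card fun u hu => ?_
                rw [List.mem_toFinset]
                exact (Finset.mem_filter.1 hu).2
            _ ≤ (q r).length := List.toFinset_card_le _
            _ ≤ T := (hq r hr).1
      _ = T * G.card := by rw [Finset.sum_const, smul_eq_mul, mul_comm]
  have hne : U.Nonempty := by
    rw [← Finset.card_pos, hU.2]
    positivity
  obtain ⟨u, hu, hle⟩ : ∃ u ∈ U, 2 ^ n * (G.filter fun r => u ∈ q r).card ≤ T * G.card := by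
    refine Finset.exists_le_of_sum_le hne ?_
    rw [← Finset.mul_sum, Finset.sum_const, smul_eq_mul, hU.2]
    exact Nat.mul_le_mul_left _ hsum
  refine ⟨u, hU.1 u hu, ?_⟩
  have hacc : (G.filter fun r => u ∉ q r).card ≤ acc (Function.update A u true) Q T m x := by
    unfold acc
    rw [Set.ncard_eq_toFinset_card _ (hfin (Function.update A u true))]
    refine Finset.card_le_card fun r hr => ?_
    rw [Finset.mem_filter] at hr
    rw [Set.Finite.mem_toFinset]
    refine ⟨((hGmem r).1 hr.1).1, (hq r hr.1).2 _ fun w hw => ?_⟩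
    rw [Function.update_of_ne]
    rintro rfl
    exact hr.2 hw
  have hsplit : (G.filter fun r => u ∈ q r).card + (G.filter fun r => u ∉ q r).card = G.card :=
    Finset.card_filter_add_card_filter_not _
  rw [hcard] at hc
  by_contra hcon
  have hpos : 0 < 2 ^ m := by positivity
  have hg : 0 < G.card := by omega
  have h1 : G.card ≤ 2 * (G.filter fun r => u ∈ q r).card := by omega
  have h2 : 2 ^ n * G.card ≤ 2 ^ n * (2 * (G.filter fun r => u ∈ q r).card) :=
    Nat.mul_le_mul_left _ h1
  have h3 : 2 * T * G.card < 2 ^ n * G.card := Nat.mul_lt_mul_of_pos_right hT hg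
  nlinarith

end Pool.Agent.Lib.MP_2254b5_lc
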