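import Pool.Agent.Lib.MP_2254b5_lc.Det

/-!
# MP_2254b5_lc / TChk (row TC, about 130 lines): the program that first checks that `x` is a word `1...1`

STATEMENTS: below, verbatim.

PROOF. First loop of `tchk`: by induction on the word on stack `0` (with stack `3` general): it moves the word, reversed, to stack `3`, and pushes one `true` on stack `4` for every letter `false`; at most `5` steps per letter and `1` at the end, no words asked. Second loop: moves the word back, `4` steps per letter. If all letters are `true` the state is `ini x y z` again (`funext`; stacks `3`, `4` are empty), the test of stack `4` fails and `Q` is run. Otherwise stack `4` has `true` on top and `false` is pushed on stack `0`.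
It is convenient to prove for states `s` in general: the loop leads from `s` to `Function.update (Function.update (Function.update s 0 []) 3 ((s 0).reverse ++ s 3)) 4 ((s 0).filter not |>.map not ++ s 4)` or to give `s'` by its values.
-/

namespace Pool.Agent.Lib.MP_2254b5_lc

/-- Check that the word on stack `0` is `1...1`: if not, output `false`; if so, run `Q` (on the
same stacks). -/
def tchk (Q : Prog) : Prog :=
  .seq (.loop 0 (.seq (.ite 0 (.push 3 true) (.seq (.push 3 false) (.push 4 true))) (.pop 0)))
    (.seq (.loop 3 (.seq (.ite 3 (.push 0 true) (.push 0 false)) (.pop 3)))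
      (.ite 4 (.push 0 false) Q))

private theorem loop_a (A : Orc) : ∀ (w : Word) (s : St), s 0 = w → ∃ (s' : St) (t : ℕ), t ≤ 5 * w.length + 1 ∧
    Run A (.loop 0 (.seq (.ite 0 (.push 3 true) (.seq (.push 3 false) (.push 4 true))) (.pop 0))) s s' t [] ∧
    s' 0 = [] ∧ s' 3 = w.reverse ++ s 3 ∧ s' 4 = List.replicate (w.count false) true ++ s 4 ∧
    ∀ k, k ≠ 0 → k ≠ 3 → k ≠ 4 → s' k = s k := by
  intro w
  induction w with
  | nil =>
    intro s hs
    refine ⟨s, 1, by simp, Run.loopF hs, hs, by simp, by simp, fun k _ _ _ => rfl⟩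
  | cons b w ih =>
    intro s hs
    cases b with
    | true =>
      have r1 : Run A (.ite 0 (.push 3 true) (.seq (.push 3 false) (.push 4 true))) s
          (Function.update s 3 (true :: s 3)) (1 + 1) [] :=
        Run.iteT (by rw [hs]; rfl) (Run.push 3 true s)
      have r2 := Run.seq r1 (Run.pop (A := A) 0 (Function.update s 3 (true :: s 3)))
      obtain ⟨s', t, h1, h2, h3, h4, h5, h6⟩ := ih (Function.update (Function.update s 3 (true :: s 3)) 0
        (Function.update s 3 (true :: s 3) 0).tail) (by simp [hs])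
      have r3 := Run.loopT (k := 0) (by rw [hs]; simp) r2 h2
      refine ⟨s', _, ?_, r3, h3, ?_, ?_, ?_⟩
      · simp only [List.length_cons]
        omega
      · rw [h4]
        simp
      · rw [h5]
        simp
      · intro k k0 k3 k4
        rw [h6 k k0 k3 k4]
        simp [k0, k3]
    | false =>
      have r1 : Run A (.ite 0 (.push 3 true) (.seq (.push 3 false) (.push 4 true))) s
          (Function.update (Function.update s 3 (false :: s 3)) 4 (true :: (Function.update s 3 (false :: s 3)) 4))
          (1 + 1 + 1) ([] ++ []) :=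
        Run.iteF (by rw [hs]; simp) (Run.seq (Run.push 3 false s) (Run.push 4 true _))
      have r2 := Run.seq r1 (Run.pop (A := A) 0 _)
      obtain ⟨s', t, h1, h2, h3, h4, h5, h6⟩ := ih (Function.update (Function.update (Function.update s 3 (false :: s 3)) 4
        (true :: (Function.update s 3 (false :: s 3)) 4)) 0 ((Function.update (Function.update s 3 (false :: s 3)) 4
        (true :: (Function.update s 3 (false :: s 3)) 4)) 0).tail) (by simp [hs])
      have r3 := Run.loopT (k := 0) (by rw [hs]; simp) r2 h2
      refine ⟨s', _, ?_, r3, h3, ?_, ?_, ?_⟩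
      · simp only [List.length_cons]
        omega
      · rw [h4]
        simp
      · rw [h5]
        simp [List.replicate_succ']
      · intro k k0 k3 k4
        rw [h6 k k0 k3 k4]
        simp [k0, k3, k4]

private theorem loop_b (A : Orc) : ∀ (w : Word) (s : St), s 3 = w → ∃ (s' : St) (t : ℕ), t ≤ 4 * w.length + 1 ∧
    Run A (.loop 3 (.seq (.ite 3 (.push 0 true) (.push 0 false)) (.pop 3))) s s' t [] ∧
    s' 3 = [] ∧ s' 0 = w.reverse ++ s 0 ∧ ∀ k, k ≠ 0 → k ≠ 3 → s' k = s k := by
  intro w
  induction w with
  | nil =>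
    intro s hs
    exact ⟨s, 1, by simp, Run.loopF hs, hs, by simp, fun k _ _ => rfl⟩
  | cons b w ih =>
    intro s hs
    have r1 : Run A (.ite 3 (.push 0 true) (.push 0 false)) s (Function.update s 0 (b :: s 0)) (1 + 1) [] := by
      cases b with
      | true => exact Run.iteT (by rw [hs]; rfl) (Run.push 0 true s)
      | false => exact Run.iteF (by rw [hs]; simp) (Run.push 0 false s)
    have r2 := Run.seq r1 (Run.pop (A := A) 3 _)
    obtain ⟨s', t, h1, h2, h3, h4, h5⟩ := ih (Function.update (Function.update s 0 (b :: s 0)) 3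
      (Function.update s 0 (b :: s 0) 3).tail) (by simp [hs])
    have r3 := Run.loopT (k := 3) (by rw [hs]; simp) r2 h2
    refine ⟨s', _, ?_, r3, h3, ?_, ?_⟩
    · simp only [List.length_cons]
      omega
    · rw [h4]
      simp
    · intro k k0 k3
      rw [h5 k k0 k3]
      simp [k0, k3]

private theorem both (A : Orc) (x y z : Word) : ∃ (s1 s2 : St) (t1 t2 : ℕ), t1 + t2 ≤ 9 * x.length + 2 ∧
    Run A (.loop 0 (.seq (.ite 0 (.push 3 true) (.seq (.push 3 false) (.push 4 true))) (.pop 0))) (ini x y z) s1 t1 [] ∧
    Run A (.loop 3 (.seq (.ite 3 (.push 0 true) (.push 0 false)) (.pop 3))) s1 s2 t2 [] ∧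
    s2 4 = List.replicate (x.count false) true ∧ s2 3 = [] ∧ s2 0 = x ∧ ∀ k, k ≠ 0 → k ≠ 3 → k ≠ 4 → s2 k = ini x y z k := by
  obtain ⟨s1, t1, a1, a2, a3, a4, a5, a6⟩ := loop_a A x (ini x y z) rfl
  have h3 : ini x y z 3 = [] := rfl
  have h4 : ini x y z 4 = [] := rfl
  rw [h3, List.append_nil] at a4
  rw [h4, List.append_nil] at a5
  obtain ⟨s2, t2, b1, b2, b3, b4, b5⟩ := loop_b A x.reverse s1 a4
  rw [List.length_reverse] at b1
  refine ⟨s1, s2, t1, t2, by omega, a2, b2, ?_, b3, ?_, ?_⟩
  · rw [b5 4 (by decide) (by decide), a5]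
  · rw [b4, a3]
    simp
  · intro k k0 k3 k4
    rw [b5 k k0 k3, a6 k k0 k3 k4]

theorem Out.tchk {A : Orc} {Q : Prog} {T : ℕ} {x y z : Word} {v : Bool} (hx : ∀ b ∈ x, b = true)
    (h : Out A Q T x y z v) : Out A (tchk Q) (T + 20 * (x.length + 1)) x y z v := by
  obtain ⟨s1, s2, t1, t2, h0, h1, h2, h3, h4, h5, h6⟩ := both A x y z
  have hc : x.count false = 0 := by
    rw [List.count_eq_zero]
    intro hf
    have := hx _ hf
    contradiction
  rw [hc, List.replicate_zero] at h3
  have hs : s2 = ini x y z := by
    funext k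
    by_cases k0 : k = 0
    · subst k0
      exact h5
    by_cases k3 : k = 3
    · subst k3
      exact h4
    by_cases k4 : k = 4
    · subst k4
      exact h3
    exact h6 k k0 k3 k4
  obtain ⟨s, t, q, ht, hr, hv⟩ := h
  rw [← hs] at hr
  exact ⟨s, _, _, by omega, Run.seq h1 (Run.seq h2 (Run.iteF (by rw [h3]; simp) hr)), hv⟩

theorem Out.tchk_not {A : Orc} {x y z : Word} (Q : Prog) (hx : ¬ ∀ b ∈ x, b = true) :
    Out A (Pool.Agent.Lib.MP_2254b5_lc.tchk Q) (20 * (x.length + 1)) x y z false := by
  obtain ⟨s1, s2, t1, t2, h0, h1, h2, h3, h4, h5, h6⟩ := both A x y z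
  have hc : 0 < x.count false := by
    rw [List.count_pos_iff]
    by_contra hf
    apply hx
    intro b hb
    cases b with
    | true => rfl
    | false => exact absurd hb hf
  obtain ⟨n, hn⟩ := Nat.exists_eq_succ_of_ne_zero hc.ne'
  rw [hn, Nat.succ_eq_add_one, List.replicate_succ] at h3
  refine ⟨Function.update s2 0 (false :: s2 0), _, _, ?_, Run.seq h1 (Run.seq h2 (Run.iteT (by rw [h3]; rfl) (Run.push 0 false s2))), ?_⟩
  · omega
  · simp

end Pool.Agent.Lib.MP_2254b5_lc
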